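import Pool.Agent.E8helper48.Core.Defs

/-! Compacta with coordinates `(ξ, t)` in `ℝ × ({0} ∪ {t_i})`. -/

set_option autoImplicit false

namespace Pool.Agent.E8helper48.Core

open Set Topology Filter

variable {X : Type} [TopologicalSpace X] [CompactSpace X] [T2Space X]

structure Coord (ξ t : X → ℝ) : Prop where
  cξ : Continuous ξ
  ct : Continuous t
  inj : ∀ x y, ξ x = ξ y → t x = t y → x = y
  nonneg : ∀ x, 0 ≤ t x
  fin : ∀ δ : ℝ, 0 < δ → {r | δ ≤ r ∧ ∃ x, t x = r}.Finite

def SC (ξ t : X → ℝ) (x y : X) : Prop :=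
  t y = t x ∧ ∀ s ∈ uIcc (ξ x) (ξ y), ∃ z, ξ z = s ∧ t z = t x

omit [TopologicalSpace X] [CompactSpace X] [T2Space X] in
theorem SC.refl (ξ t : X → ℝ) (x : X) : SC ξ t x x := by
  refine ⟨rfl, fun s hs => ⟨x, ?_, rfl⟩⟩
  rw [uIcc_self] at hs
  exact hs.symm

omit [TopologicalSpace X] [CompactSpace X] [T2Space X] in
theorem SC.symm {ξ t : X → ℝ} {x y : X} (h : SC ξ t x y) : SC ξ t y x := by
  refine ⟨h.1.symm, fun s hs => ?_⟩
  rw [uIcc_comm] at hs
  rw [h.1]
  exact h.2 s hs

omit [TopologicalSpace X] [CompactSpace X] [T2Space X] in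
theorem SC.trans {ξ t : X → ℝ} {x y z : X} (h : SC ξ t x y) (h' : SC ξ t y z) : SC ξ t x z := by
  refine ⟨h'.1.trans h.1, fun s hs => ?_⟩
  rcases uIcc_subset_uIcc_union_uIcc (b := ξ y) hs with h1 | h1
  · exact h.2 s h1
  · rw [← h.1]
    exact h'.2 s h1

omit [TopologicalSpace X] [CompactSpace X] [T2Space X] in
theorem SC.sub {ξ t : X → ℝ} {x y z : X} (h : SC ξ t x y) (ht : t z = t x)
    (hz : ξ z ∈ uIcc (ξ x) (ξ y)) : SC ξ t x z := by
  refine ⟨ht, fun s hs => h.2 s ?_⟩
  exact uIcc_subset_uIcc left_mem_uIcc hz hs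

/-- the graph of `SC` is closed -/
theorem isClosed_SC {ξ t : X → ℝ} (H : Coord ξ t) : IsClosed {p : X × X | SC ξ t p.1 p.2} := by
  have hA : IsClosed (range fun x : X => (ξ x, t x)) :=
    (isCompact_range (H.cξ.prodMk H.ct)).isClosed
  have h1 : {p : X × X | SC ξ t p.1 p.2} = {p : X × X | t p.2 = t p.1} ∩
      ⋂ c ∈ Icc (0 : ℝ) 1, {p : X × X | ((1 - c) * ξ p.1 + c * ξ p.2, t p.1) ∈
        range fun x : X => (ξ x, t x)} := by
    ext ⟨x, y⟩
    simp only [mem_ofPred_eq, mem_inter_iff, mem_iInter, mem_range, Prod.mk.injEq]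
    constructor
    · rintro ⟨h1, h2⟩
      refine ⟨h1, fun c hc => h2 _ ?_⟩
      have := segment_eq_uIcc (ξ x) (ξ y)
      rw [← this]
      exact ⟨1 - c, c, by linarith [hc.2], hc.1, by ring, by simp⟩
    · rintro ⟨h1, h2⟩
      refine ⟨h1, fun s hs => ?_⟩
      rw [← segment_eq_uIcc] at hs
      obtain ⟨a, b, ha, hb, hab, rfl⟩ := hs
      have h3 := h2 b ⟨hb, by linarith⟩
      have h4 : 1 - b = a := by linarith
      rw [h4] at h3
      simpa using h3
  rw [h1]
  refine (isClosed_eq (H.ct.comp continuous_snd) (H.ct.comp continuous_fst)).inter ?_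
  refine isClosed_iInter fun c => isClosed_iInter fun _ => ?_
  refine hA.preimage ?_
  have := H.cξ
  have := H.ct
  fun_prop

omit [CompactSpace X] [T2Space X] in
theorem t_const {ξ t : X → ℝ} (H : Coord ξ t) {S : Set X} (hS : IsPreconnected S) {x y : X}
    (hx : x ∈ S) (hy : y ∈ S) : t y = t x := by
  have key : ∀ x ∈ S, ∀ y ∈ S, ¬ t x < t y := by
    intro x hx y hy hlt
    have h1 : (t '' S).OrdConnected := (hS.image t H.ct.continuousOn).ordConnected
    have h2 : Icc ((t x + t y) / 2) (t y) ⊆ {r | (t x + t y) / 2 ≤ r ∧ ∃ x, t x = r} := by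
      intro r hr
      have h3 : r ∈ t '' S := h1.out (mem_image_of_mem t hx) (mem_image_of_mem t hy)
        ⟨by linarith [hr.1], hr.2⟩
      obtain ⟨z, -, hz⟩ := h3
      exact ⟨hr.1, z, hz⟩
    have h4 : 0 < (t x + t y) / 2 := by linarith [H.nonneg x]
    exact (Icc_infinite (by linarith)) ((H.fin _ h4).subset h2)
  rcases lt_trichotomy (t x) (t y) with h | h | h
  · exact absurd h (key x hx y hy)
  · exact h.symm
  · exact absurd h (key y hy x hx)

omit [CompactSpace X] [T2Space X] in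
theorem SC_of_mem {ξ t : X → ℝ} (H : Coord ξ t) {x y : X} (h : y ∈ connectedComponent x) :
    SC ξ t x y := by
  refine ⟨t_const H isPreconnected_connectedComponent mem_connectedComponent h, fun s hs => ?_⟩
  have h1 : (ξ '' connectedComponent x).OrdConnected :=
    (isPreconnected_connectedComponent.image ξ H.cξ.continuousOn).ordConnected
  have h2 : s ∈ ξ '' connectedComponent x :=
    h1.uIcc_subset (mem_image_of_mem ξ mem_connectedComponent) (mem_image_of_mem ξ h) hs
  obtain ⟨z, hz, hzs⟩ := h2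
  exact ⟨z, hzs, t_const H isPreconnected_connectedComponent mem_connectedComponent hz⟩

/-- the piece of a slice over a segment is connected -/
theorem seg_connected {ξ t : X → ℝ} (H : Coord ξ t) {x y : X} (h : SC ξ t x y) :
    IsConnected {z | t z = t x ∧ ξ z ∈ uIcc (ξ x) (ξ y)} := by
  set W : Set X := {z | t z = t x ∧ ξ z ∈ uIcc (ξ x) (ξ y)} with hW
  have hWc : IsClosed W := (isClosed_eq H.ct continuous_const).inter
    (isClosed_Icc.preimage H.cξ)
  have : CompactSpace W := isCompact_iff_compactSpace.1 hWc.isCompact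
  let f : W → uIcc (ξ x) (ξ y) := fun z => ⟨ξ z, z.2.2⟩
  have hf : Continuous f := (H.cξ.comp continuous_subtype_val).subtype_mk _
  have hb : Function.Bijective f := by
    constructor
    · intro a b hab
      have h1 : ξ a = ξ b := congrArg Subtype.val hab
      exact Subtype.ext (H.inj _ _ h1 (a.2.1.trans b.2.1.symm))
    · rintro ⟨s, hs⟩
      obtain ⟨z, hz, hzt⟩ := h.2 s hs
      exact ⟨⟨z, hzt, by rw [hz]; exact hs⟩, Subtype.ext hz⟩
  let e : W ≃ₜ uIcc (ξ x) (ξ y) :=
    Continuous.homeoOfEquivCompactToT2 (f := Equiv.ofBijective f hb) hf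
  have hc : ConnectedSpace (uIcc (ξ x) (ξ y)) :=
    isConnected_iff_connectedSpace.1 ⟨⟨_, left_mem_uIcc⟩, isPreconnected_uIcc⟩
  have : ConnectedSpace W := e.symm.surjective.connectedSpace e.symm.continuous
  exact isConnected_iff_connectedSpace.2 this

theorem mem_component_iff {ξ t : X → ℝ} (H : Coord ξ t) (x y : X) :
    y ∈ connectedComponent x ↔ SC ξ t x y := by
  refine ⟨SC_of_mem H, fun h => ?_⟩
  have h1 := seg_connected H h
  exact h1.isPreconnected.subset_connectedComponent ⟨rfl, left_mem_uIcc⟩ ⟨h.1, right_mem_uIcc⟩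

/-- the decomposition whose nondegenerate elements are the components of the slice `t = 0` -/
def DX (ξ t : X → ℝ) : Setoid X where
  r x y := x = y ∨ (t x = 0 ∧ SC ξ t x y)
  iseqv :=
    { refl := fun x => Or.inl rfl
      symm := by
        rintro x y (h | ⟨h, h'⟩)
        · exact Or.inl h.symm
        · exact Or.inr ⟨h'.1.trans h, h'.symm⟩
      trans := by
        rintro x y z (rfl | ⟨h, h'⟩) h2
        · exact h2
        · rcases h2 with rfl | ⟨h2, h2'⟩
          · exact Or.inr ⟨h, h'⟩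
          · exact Or.inr ⟨h, h'.trans h2'⟩ }

omit [TopologicalSpace X] [CompactSpace X] [T2Space X] in
theorem DX_iff (ξ t : X → ℝ) (x y : X) : DX ξ t x y ↔ x = y ∨ (t x = 0 ∧ SC ξ t x y) := Iff.rfl

theorem DX_closed {ξ t : X → ℝ} (H : Coord ξ t) : IsClosed {p : X × X | DX ξ t p.1 p.2} := by
  have h : {p : X × X | DX ξ t p.1 p.2} = {p : X × X | p.1 = p.2} ∪
      ({p : X × X | t p.1 = 0} ∩ {p : X × X | SC ξ t p.1 p.2}) := by
    ext ⟨x, y⟩
    exact DX_iff ξ t x y
  rw [h]
  exact (isClosed_eq continuous_fst continuous_snd).union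
    ((isClosed_eq (H.ct.comp continuous_fst) continuous_const).inter (isClosed_SC H))

theorem DX_continua {ξ t : X → ℝ} (H : Coord ξ t) : IntoContinua (DX ξ t) := by
  refine ⟨usc_of_closed _ (DX_closed H), fun x => ⟨⟨x, Or.inl rfl⟩, ?_⟩⟩
  refine isPreconnected_of_forall x fun y hy => ?_
  rcases hy with rfl | ⟨h0, hy⟩
  · exact ⟨{x}, by simpa using Or.inl rfl, rfl, rfl, isPreconnected_singleton⟩
  · refine ⟨{z | t z = t x ∧ ξ z ∈ uIcc (ξ x) (ξ y)}, ?_, ⟨rfl, left_mem_uIcc⟩,
      ⟨hy.1, right_mem_uIcc⟩, (seg_connected H hy).isPreconnected⟩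
    rintro z ⟨hz1, hz2⟩
    exact Or.inr ⟨h0, hy.sub hz1 hz2⟩

end Pool.Agent.E8helper48.Core
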