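import Mathlib

/-! Peano decompositions, core decompositions: definitions and general facts. -/

set_option autoImplicit false

namespace Pool.Agent.E8helper48.Core

open Set Topology Filter

/-- A compact metric space whose components of diameter `> ε` are finitely many for every `ε > 0`
and whose nondegenerate components are locally connected. -/
def PeanoCompactum (Y : Type) [MetricSpace Y] : Prop :=
  CompactSpace Y ∧
  (∀ ε : ℝ, 0 < ε →
    {C : Set Y | (∃ y, C = connectedComponent y) ∧ ε < Metric.diam C}.Finite) ∧
  ∀ y : Y, (connectedComponent y).Nontrivial → LocallyConnectedSpace (connectedComponent y)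

/-- upper semicontinuous decomposition -/
def USC {X : Type} [TopologicalSpace X] (D : Setoid X) : Prop :=
  (∀ x, IsClosed {y | D x y}) ∧
  ∀ (x : X) (U : Set X), IsOpen U → {y | D x y} ⊆ U →
    ∃ V : Set X, IsOpen V ∧ {y | D x y} ⊆ V ∧ V ⊆ U ∧ ∀ y ∈ V, ∀ z, D y z → z ∈ V

/-- usc decomposition into subcontinua -/
def IntoContinua {X : Type} [TopologicalSpace X] (D : Setoid X) : Prop :=
  USC D ∧ ∀ x, IsConnected {y | D x y}

/-- Peano decomposition -/
def PeanoDecomposition {X : Type} [TopologicalSpace X] (D : Setoid X) : Prop :=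
  IntoContinua D ∧ ∃ m : MetricSpace (Quotient D),
    m.toUniformSpace.toTopologicalSpace = (inferInstance : TopologicalSpace (Quotient D)) ∧
      @PeanoCompactum (Quotient D) m

/-- core decomposition -/
def IsCore {X : Type} [TopologicalSpace X] (D : Setoid X) : Prop :=
  PeanoDecomposition D ∧ ∀ E : Setoid X, PeanoDecomposition E → D ≤ E

/-- A closed equivalence relation on a compact Hausdorff space is a usc decomposition. -/
theorem usc_of_closed {X : Type} [TopologicalSpace X] [CompactSpace X] [T2Space X] (D : Setoid X)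
    (h : IsClosed {p : X × X | D p.1 p.2}) : USC D := by
  have hc : ∀ x, IsClosed {y | D x y} := fun x =>
    h.preimage (f := fun y => (x, y)) (by fun_prop)
  refine ⟨hc, fun x U hU hxU => ?_⟩
  refine ⟨{y | ∀ z, D y z → z ∈ U}, ?_, ?_, ?_, ?_⟩
  · have h1 : IsClosed (Prod.fst '' ({p : X × X | D p.1 p.2} ∩ (univ ×ˢ Uᶜ))) :=
      ((h.inter (isClosed_univ.prod hU.isClosed_compl)).isCompact.image continuous_fst).isClosed
    convert h1.isOpen_compl using 1
    ext y
    simp only [mem_ofPred_eq, mem_compl_iff, mem_image, Prod.exists, mem_inter_iff, mem_prod,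
      mem_univ, true_and, exists_and_right, exists_eq_right, not_exists, not_and, not_not]
  · intro y hy z hz
    exact hxU (D.trans' hy hz)
  · intro y hy
    exact hy y (D.refl' y)
  · intro y hy z hz w hw
    exact hy w (D.trans' hz hw)

/-- Existence of the metric of the quotient from a separating continuous map. -/
theorem metric_of_map {X M : Type} [TopologicalSpace X] [CompactSpace X] [MetricSpace M]
    (D : Setoid X) (Φ : X → M) (hΦ : Continuous Φ) (h : ∀ x y, Φ x = Φ y ↔ D x y) :
    ∃ m : MetricSpace (Quotient D),
      m.toUniformSpace.toTopologicalSpace = (inferInstance : TopologicalSpace (Quotient D)) := by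
  let Ψ : Quotient D → M := Quotient.lift Φ fun x y hxy => (h x y).2 hxy
  have hΨ : Continuous Ψ := hΦ.quotient_lift _
  have hinj : Function.Injective Ψ := by
    intro a b
    induction a using Quotient.inductionOn
    induction b using Quotient.inductionOn
    intro hab
    exact Quotient.sound ((h _ _).1 hab)
  have he : IsClosedEmbedding Ψ := hΨ.isClosedEmbedding hinj
  exact ⟨MetricSpace.induced Ψ hinj inferInstance, he.eq_induced.symm⟩

/-- Abstract form of `not_split`. -/
theorem not_split_aux {X Y : Type} [TopologicalSpace X] [MetricSpace Y] (q : X → Y)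
    (hq : IsQuotientMap q) (hconn : ∀ y, IsConnected (q ⁻¹' {y})) (hcpt : CompactSpace Y)
    (hfin : ∀ ε : ℝ, 0 < ε →
      {C : Set Y | (∃ y, C = connectedComponent y) ∧ ε < Metric.diam C}.Finite)
    (t : X → ℝ) (ht : Continuous t) (hcomp : ∀ x y, y ∈ connectedComponent x → t y = t x)
    (x y : X) (hx : t x = 0)
    (hxy : (x, y) ∈ closure {p : X × X | p.2 ∈ connectedComponent p.1 ∧ t p.1 ≠ 0}) :
    q x = q y := by
  by_contra hne
  have hpos : 0 < dist (q x) (q y) := dist_pos.2 hne
  set ε := dist (q x) (q y) / 2 with hε
  have hε0 : 0 < ε := by positivity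
  set S : Set (Set Y) := {C : Set Y | (∃ y, C = connectedComponent y) ∧ ε < Metric.diam C} with hS
  have hSf : S.Finite := hfin ε hε0
  set U : Set (X × X) := {p | ε < dist (q p.1) (q p.2)} with hU
  have hUo : IsOpen U := isOpen_lt continuous_const
    ((hq.continuous.comp continuous_fst).dist (hq.continuous.comp continuous_snd))
  have hxU : (x, y) ∈ U := by
    change ε < dist (q x) (q y)
    linarith
  -- the values of `t` on the big components
  set T : Set ℝ := {r | r ≠ 0 ∧ ∃ C ∈ S, ∀ z, q z ∈ C → t z = r} with hT
  have hTf : T.Finite := by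
    have h1 : T ⊆ ⋃ C ∈ S, {r | ∃ z, q z ∈ C ∧ t z = r ∧ ∀ w, q w ∈ C → t w = r} := by
      rintro r ⟨-, C, hC, hr⟩
      obtain ⟨⟨y0, hy0⟩, hd⟩ := hC
      obtain ⟨z0, hz0⟩ := hq.surjective y0
      refine mem_iUnion₂.2 ⟨C, ⟨⟨y0, hy0⟩, hd⟩, z0, ?_, hr z0 ?_, hr⟩ <;>
      · rw [hy0, hz0]
        exact mem_connectedComponent
    refine Finite.subset (hSf.biUnion fun C _ => ?_) h1
    refine Set.Subsingleton.finite ?_
    rintro r ⟨z, hz, -, hr⟩ r' ⟨z', hz', -, hr'⟩
    rw [← hr z hz, ← hr' z hz]
  have hcl : (0 : ℝ) ∈ T := by
    have h2 : (x, y) ∈ closure (U ∩ {p : X × X | p.2 ∈ connectedComponent p.1 ∧ t p.1 ≠ 0}) :=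
      hUo.inter_closure ⟨hxU, hxy⟩
    have h3 : t x ∈ closure T := by
      have h4 : MapsTo (fun p : X × X => t p.1)
          (U ∩ {p : X × X | p.2 ∈ connectedComponent p.1 ∧ t p.1 ≠ 0}) T := by
        rintro ⟨a, b⟩ ⟨hab, hb, ha⟩
        refine ⟨ha, connectedComponent (q a), ⟨⟨_, rfl⟩, ?_⟩, ?_⟩
        · refine lt_of_lt_of_le hab (Metric.dist_le_diam_of_mem ?_ mem_connectedComponent ?_)
          · exact (isCompact_univ.isBounded).subset (subset_univ _)
          · exact hq.continuous.image_connectedComponent_subset a ⟨b, hb, rfl⟩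
        · intro z hz
          rw [← hq.isCoinducing.image_connectedComponent hconn] at hz
          obtain ⟨w, hw, hwz⟩ := hz
          have h5 : z ∈ connectedComponent w := by
            have h6 := (hconn (q w)).isPreconnected.subset_connectedComponent
              (x := w) rfl
            exact h6 hwz.symm
          rw [hcomp w z h5, hcomp a w hw]
      exact h4.closure (by fun_prop) h2
    rw [hTf.isClosed.closure_eq, hx] at h3
    exact h3
  exact hcl.1 rfl

/-- the main necessary condition: pairs of points which are limits of pairs in big components with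
infinitely many different labels are not separated. -/
theorem not_split {X : Type} [TopologicalSpace X] (t : X → ℝ) (ht : Continuous t)
    (hcomp : ∀ x y, y ∈ connectedComponent x → t y = t x)
    (D : Setoid X) (hD : PeanoDecomposition D) (x y : X) (hx : t x = 0)
    (hxy : (x, y) ∈ closure {p : X × X | p.2 ∈ connectedComponent p.1 ∧ t p.1 ≠ 0}) : D x y := by
  obtain ⟨⟨-, hconn⟩, m, hm, hcpt, hfin, -⟩ := hD
  have hq : @IsQuotientMap X (Quotient D) _ m.toUniformSpace.toTopologicalSpace
      (Quotient.mk D) := by
    rw [hm]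
    exact isQuotientMap_quotient_mk'
  have key := @not_split_aux X (Quotient D) _ m (Quotient.mk D) hq ?_ hcpt hfin t ht hcomp x y hx
    hxy
  · exact Quotient.exact key
  · intro a
    induction a using Quotient.inductionOn with
    | h a =>
      convert hconn a using 1
      ext b
      constructor
      · intro h
        exact D.symm' (Quotient.exact h)
      · intro h
        exact Quotient.sound (D.symm' h)

end Pool.Agent.E8helper48.Core
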