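import Pool.Agent.E8helper48.Core.Lift

/-! The decomposition `D_K^τ` and the main theorem. -/

set_option autoImplicit false
set_option linter.unusedSectionVars false

namespace Pool.Agent.E8helper48.Core

open Set Topology Filter

theorem no_zero_interval {a b : ℝ} (ha : a ∈ Icc (0 : ℝ) 1) (hb : b ∈ Icc (0 : ℝ) 1)
    (hab : a < b) (h : ∀ s ∈ Icc a b, f s = 0) : False := by
  have hm : (a + b) / 2 ∈ Icc (0 : ℝ) 1 := ⟨by linarith [ha.1, hb.1], by linarith [ha.2, hb.2]⟩
  obtain ⟨u, v, -, hv, -, hvs, -⟩ := both_signs hm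
    (h _ ⟨by linarith, by linarith⟩) (show 0 < (b - a) / 2 by linarith)
  rw [abs_lt] at hvs
  have := h v ⟨by linarith [hvs.1], by linarith [hvs.2]⟩
  linarith

/-- an up-arch and a down-arch do not share an end -/
theorem adj {a b c : ℝ} (ha : a ∈ Icc (0 : ℝ) 1) (hb : b ∈ Icc (0 : ℝ) 1)
    (hc : c ∈ Icc (0 : ℝ) 1) (hab : a ≠ b) (hbc : b ≠ c) (h1 : ∀ s ∈ uIcc a b, 0 ≤ f s)
    (h2 : ∀ s ∈ uIcc b c, f s ≤ 0) : False := by
  have hfb : f b = 0 := le_antisymm (h2 b left_mem_uIcc) (h1 b right_mem_uIcc)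
  have hδ : 0 < min |a - b| |b - c| :=
    lt_min (abs_pos.2 (sub_ne_zero.2 hab)) (abs_pos.2 (sub_ne_zero.2 hbc))
  obtain ⟨u, v, hu, hv, hus, hvs, hside⟩ := both_signs hb hfb hδ
  have hus1 := hus.trans_le (min_le_left _ _)
  have hvs2 := hvs.trans_le (min_le_right _ _)
  rcases lt_or_gt_of_ne hab with hab' | hab' <;> rcases lt_or_gt_of_ne hbc with hbc' | hbc'
  · -- a < b < c
    rw [abs_of_neg (a := a - b) (by linarith)] at hus1
    rw [abs_of_neg (a := b - c) (by linarith)] at hvs2
    rw [abs_lt] at hus1 hvs2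
    rcases hside with ⟨h3, h4⟩ | ⟨h3, h4⟩
    · have := h2 v (mem_uIcc.2 (Or.inl ⟨h4.le, by linarith [hvs2.2]⟩))
      linarith
    · have := h1 u (mem_uIcc.2 (Or.inl ⟨by linarith [hus1.1], h3.le⟩))
      linarith
  · -- a < b, c < b
    refine no_zero_interval (a := max a c) (b := b) ?_ hb (max_lt hab' hbc') fun s hs => ?_
    · exact ⟨le_max_of_le_left ha.1, max_le ha.2 hc.2⟩
    · refine le_antisymm (h2 s (mem_uIcc.2 (Or.inr ⟨?_, hs.2⟩)))
        (h1 s (mem_uIcc.2 (Or.inl ⟨?_, hs.2⟩)))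
      · exact (le_max_right _ _).trans hs.1
      · exact (le_max_left _ _).trans hs.1
  · -- b < a, b < c
    refine no_zero_interval (a := b) (b := min a c) hb ?_ (lt_min hab' hbc') fun s hs => ?_
    · exact ⟨le_min ha.1 hc.1, min_le_of_left_le ha.2⟩
    · refine le_antisymm (h2 s (mem_uIcc.2 (Or.inl ⟨hs.1, ?_⟩)))
        (h1 s (mem_uIcc.2 (Or.inr ⟨hs.1, ?_⟩)))
      · exact hs.2.trans (min_le_right _ _)
      · exact hs.2.trans (min_le_left _ _)
  · -- c < b < a
    rw [abs_of_pos (a := a - b) (by linarith)] at hus1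
    rw [abs_of_pos (a := b - c) (by linarith)] at hvs2
    rw [abs_lt] at hus1 hvs2
    rcases hside with ⟨h3, h4⟩ | ⟨h3, h4⟩
    · have := h1 u (mem_uIcc.2 (Or.inr ⟨h3.le, by linarith [hus1.2]⟩))
      linarith
    · have := h2 v (mem_uIcc.2 (Or.inr ⟨by linarith [hvs2.1], h4.le⟩))
      linarith

/-- two points of the arc `t = 0` of `K` lie on a common arch -/
def SameArch (x y : KK) : Prop :=
  (∀ s ∈ uIcc (xK x) (xK y), 0 ≤ f s) ∨ (∀ s ∈ uIcc (xK x) (xK y), f s ≤ 0)

theorem sameArch_trans {x y z : KK} (hxy : xK x ≠ xK y) (hyz : xK y ≠ xK z) (h : SameArch x y)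
    (h' : SameArch y z) : SameArch x z := by
  rcases h with h | h <;> rcases h' with h' | h'
  · left
    intro s hs
    rcases uIcc_subset_uIcc_union_uIcc (b := xK y) hs with h1 | h1
    · exact h s h1
    · exact h' s h1
  · exact absurd trivial fun _ => adj (xK_mem x) (xK_mem y) (xK_mem z) hxy hyz h h'
  · refine absurd trivial fun _ => adj (xK_mem z) (xK_mem y) (xK_mem x) hyz.symm hxy.symm ?_ ?_
    · rw [uIcc_comm]
      exact h'
    · rw [uIcc_comm]
      exact h
  · right
    intro s hs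
    rcases uIcc_subset_uIcc_union_uIcc (b := xK y) hs with h1 | h1
    · exact h s h1
    · exact h' s h1

/-- the decomposition `D_K^τ`: its nondegenerate elements are the closed arches -/
def EK : Setoid KK where
  r x y := x = y ∨ (tK x = 0 ∧ tK y = 0 ∧ SameArch x y)
  iseqv :=
    { refl := fun x => Or.inl rfl
      symm := by
        rintro x y (h | ⟨h1, h2, h3⟩)
        · exact Or.inl h.symm
        · refine Or.inr ⟨h2, h1, ?_⟩
          unfold SameArch at h3 ⊢
          rw [uIcc_comm]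
          exact h3
      trans := by
        rintro x y z hxy hyz
        rcases hxy with rfl | ⟨h1, h2, h3⟩
        · exact hyz
        · rcases hyz with rfl | ⟨h4, h5, h6⟩
          · exact Or.inr ⟨h1, h2, h3⟩
          · by_cases hx : xK x = xK y
            · rw [coordK_ext hx (h1.trans h2.symm)]
              exact Or.inr ⟨h4, h5, h6⟩
            · by_cases hz : xK y = xK z
              · rw [← coordK_ext hz (h4.trans h5.symm)]
                exact Or.inr ⟨h1, h2, h3⟩
              · exact Or.inr ⟨h1, h5, sameArch_trans hx hz h3 h6⟩ }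

theorem EK_iff (x y : KK) : EK x y ↔ x = y ∨ (tK x = 0 ∧ tK y = 0 ∧ SameArch x y) := Iff.rfl

theorem EK_closed : IsClosed {p : KK × KK | EK p.1 p.2} := by
  let gm : ℝ → ℝ := fun s => max 0 (-f s)
  let gp : ℝ → ℝ := fun s => max 0 (f s)
  have hgm : Continuous gm := continuous_const.max f_cont.neg
  have hgp : Continuous gp := continuous_const.max f_cont
  let Fm : ℝ → ℝ := fun a => ∫ s in (0 : ℝ)..a, gm s
  let Fp : ℝ → ℝ := fun a => ∫ s in (0 : ℝ)..a, gp s
  have hFm : Continuous Fm := prim_continuous hgm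
  have hFp : Continuous Fp := prim_continuous hgp
  have h : {p : KK × KK | EK p.1 p.2} = {p : KK × KK | p.1 = p.2} ∪
      (({p : KK × KK | tK p.1 = 0} ∩ {p : KK × KK | tK p.2 = 0}) ∩
        ({p : KK × KK | Fm (xK p.1) = Fm (xK p.2)} ∪
          {p : KK × KK | Fp (xK p.1) = Fp (xK p.2)})) := by
    ext ⟨x, y⟩
    simp only [mem_union, mem_inter_iff, mem_ofPred_eq]
    rw [EK_iff]
    constructor
    · rintro (h1 | ⟨h1, h2, h3⟩)
      · exact Or.inl h1
      · by_cases hxy : xK x = xK y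
        · exact Or.inl (coordK_ext hxy (h1.trans h2.symm))
        · refine Or.inr ⟨⟨h1, h2⟩, ?_⟩
          rcases h3 with h3 | h3
          · left
            refine (prim_eq_iff hgm (fun s => le_max_left _ _) hxy).2 fun s hs => ?_
            exact max_eq_left (by linarith [h3 s hs])
          · right
            refine (prim_eq_iff hgp (fun s => le_max_left _ _) hxy).2 fun s hs => ?_
            exact max_eq_left (by linarith [h3 s hs])
    · rintro (h1 | ⟨⟨h1, h2⟩, h3⟩)
      · exact Or.inl h1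
      · by_cases hxy : xK x = xK y
        · exact Or.inl (coordK_ext hxy (h1.trans h2.symm))
        · refine Or.inr ⟨h1, h2, ?_⟩
          rcases h3 with h3 | h3
          · left
            intro s hs
            have h4 := (prim_eq_iff hgm (fun s => le_max_left _ _) hxy).1 h3 s hs
            have h5 : -f s ≤ max 0 (-f s) := le_max_right _ _
            have h6 : max 0 (-f s) = 0 := h4
            linarith
          · right
            intro s hs
            have h4 := (prim_eq_iff hgp (fun s => le_max_left _ _) hxy).1 h3 s hs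
            have h5 : f s ≤ max 0 (f s) := le_max_right _ _
            have h6 : max 0 (f s) = 0 := h4
            linarith
  rw [h]
  have c1 : Continuous fun p : KK × KK => tK p.1 := tK_cont.comp continuous_fst
  have c2 : Continuous fun p : KK × KK => tK p.2 := tK_cont.comp continuous_snd
  have c3 : Continuous fun p : KK × KK => xK p.1 := xK_cont.comp continuous_fst
  have c4 : Continuous fun p : KK × KK => xK p.2 := xK_cont.comp continuous_snd
  exact (isClosed_eq continuous_fst continuous_snd).union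
    (((isClosed_eq c1 continuous_const).inter (isClosed_eq c2 continuous_const)).inter
      ((isClosed_eq (hFm.comp c3) (hFm.comp c4)).union (isClosed_eq (hFp.comp c3) (hFp.comp c4))))

theorem EK_continua : IntoContinua EK := by
  refine ⟨usc_of_closed _ EK_closed, fun x => ⟨⟨x, Or.inl rfl⟩, ?_⟩⟩
  refine isPreconnected_of_forall x fun y hy => ?_
  rcases hy with rfl | ⟨h1, h2, h3⟩
  · exact ⟨{x}, by simpa using Or.inl rfl, rfl, rfl, isPreconnected_singleton⟩
  · refine ⟨{z | tK z = tK x ∧ xK z ∈ uIcc (xK x) (xK y)}, ?_, ⟨rfl, left_mem_uIcc⟩,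
      ⟨h2.trans h1.symm, right_mem_uIcc⟩,
      (seg_connected coordK (SC_K (h2.trans h1.symm))).isPreconnected⟩
    rintro z ⟨hz1, hz2⟩
    refine Or.inr ⟨h1, hz1.trans h1, ?_⟩
    have h4 : uIcc (xK x) (xK z) ⊆ uIcc (xK x) (xK y) := uIcc_subset_uIcc left_mem_uIcc hz2
    rcases h3 with h3 | h3
    · exact Or.inl fun s hs => h3 s (h4 hs)
    · exact Or.inr fun s hs => h3 s (h4 hs)

/-- the finest usc decomposition of `K` into subcontinua which splits no image of an element of the
decomposition `DL` of the lift -/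
def IsTauDecomposition (K : Set Torus) (DL : Setoid ↥(tau ⁻¹' K)) (D : Setoid ↥K) : Prop :=
  IsLeast {E : Setoid ↥K | IntoContinua E ∧
    ∀ a b : ↥(tau ⁻¹' K), DL a b → E ⟨tau a.1, a.2⟩ ⟨tau b.1, b.2⟩} D

theorem EK_tau : IsTauDecomposition KK (DX xL tL) EK := by
  refine ⟨⟨EK_continua, ?_⟩, ?_⟩
  · rintro a b (rfl | ⟨h0, h⟩)
    · exact Or.inl rfl
    · rw [SC_L_iff] at h
      obtain ⟨h1, h2⟩ := h
      refine Or.inr ⟨h0, h1.trans h0, ?_⟩
      rw [h0] at h2
      simp only [add_zero] at h2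
      rcases h2 with ⟨-, -, h2⟩ | ⟨-, -, h2⟩
      · exact Or.inl h2
      · exact Or.inr h2
  · rintro E ⟨-, hE⟩ x y hxy
    by_cases hne : x = y
    · exact hne ▸ E.refl' x
    rcases hxy with rfl | ⟨h1, h2, h3⟩
    · exact absurd rfl hne
    · have hT : (0 : ℝ) ∈ TT := Or.inl rfl
      have hpx : pK (xK x) 0 (xK_mem x) hT = x := coordK_ext (xK_pK _ _ _ _)
        ((tK_pK _ _ _ _).trans h1.symm)
      have hpy : pK (xK y) 0 (xK_mem y) hT = y := coordK_ext (xK_pK _ _ _ _)
        ((tK_pK _ _ _ _).trans h2.symm)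
      rcases h3 with h3 | h3
      · obtain ⟨a, ha1, ha2, -, ha4⟩ := ex0 (xK_mem x) hT
          (by linarith [h3 _ left_mem_uIcc])
        obtain ⟨b, hb1, hb2, -, hb4⟩ := ex0 (xK_mem y) hT
          (by linarith [h3 _ right_mem_uIcc])
        have h4 : DX xL tL a b := by
          refine Or.inr ⟨ha4, (SC_L_iff a b).2 ⟨hb4.trans ha4.symm, Or.inl ⟨ha2, hb2, ?_⟩⟩⟩
          intro s hs
          rw [ha1, hb1, xK_pK, xK_pK] at hs
          rw [ha4, add_zero]
          exact h3 s hs
        have h5 := hE a b h4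
        change E (kL a) (kL b) at h5
        rw [ha1, hb1, hpx, hpy] at h5
        exact h5
      · obtain ⟨a, ha1, ha2, -, ha4⟩ := ex1 (xK_mem x) hT
          (by linarith [h3 _ left_mem_uIcc])
        obtain ⟨b, hb1, hb2, -, hb4⟩ := ex1 (xK_mem y) hT
          (by linarith [h3 _ right_mem_uIcc])
        have h4 : DX xL tL a b := by
          refine Or.inr ⟨ha4, (SC_L_iff a b).2 ⟨hb4.trans ha4.symm, Or.inr ⟨ha2, hb2, ?_⟩⟩⟩
          intro s hs
          rw [ha1, hb1, xK_pK, xK_pK] at hs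
          rw [ha4, add_zero]
          exact h3 s hs
        have h5 := hE a b h4
        change E (kL a) (kL b) at h5
        rw [ha1, hb1, hpx, hpy] at h5
        exact h5

theorem EK_ne : EK ≠ DX xK tK := by
  intro h
  have hT : (0 : ℝ) ∈ TT := Or.inl rfl
  have h0 : (0 : ℝ) ∈ Icc (0 : ℝ) 1 := ⟨le_rfl, zero_le_one⟩
  have h1 : (1 : ℝ) ∈ Icc (0 : ℝ) 1 := ⟨zero_le_one, le_rfl⟩
  have h2 : DX xK tK (pK 0 0 h0 hT) (pK 1 0 h1 hT) :=
    Or.inr ⟨tK_pK _ _ _ _, SC_K (by rw [tK_pK, tK_pK])⟩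
  rw [← h] at h2
  rcases h2 with h2 | ⟨-, -, h2⟩
  · have := congrArg xK h2
    rw [xK_pK, xK_pK] at this
    norm_num at this
  · unfold SameArch at h2
    rw [xK_pK, xK_pK, uIcc_of_le zero_le_one] at h2
    have h12 : 0 < f (1 / 2) := f_mid (by norm_num) (by norm_num)
    have h16 : f (1 / 6) < 0 := by
      rw [f_left (by norm_num), show (3 * (1 / 6) : ℝ) = 1 / 2 by norm_num]
      linarith
    rcases h2 with h2 | h2
    · have := h2 (1 / 6) ⟨by norm_num, by norm_num⟩
      linarith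
    · have := h2 (1 / 2) ⟨by norm_num, by norm_num⟩
      linarith

/-- **Main theorem.** -/
theorem main : ∃ K : Set Torus, IsCompact K ∧
    ∃ (DL : Setoid ↥(tau ⁻¹' K)) (DK Dτ : Setoid ↥K), IsCore DL ∧ IsCore DK ∧
      IsTauDecomposition K DL Dτ ∧ Dτ ≠ DK :=
  ⟨KK, KK_compact, DX xL tL, DX xK tK, EK, isCore_L, isCore_K, EK_tau, EK_ne⟩

end Pool.Agent.E8helper48.Core
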