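import Mathlib

/-! A continuous function `f : ℝ → ℝ` such that in every neighbourhood of every zero `z ∈ [0, 1]`
there is a side of `z` on which `f` takes both signs. -/

set_option autoImplicit false

namespace Pool.Agent.E8helper48.Core

open Set Topology Filter

noncomputable def bump (x : ℝ) : ℝ := max 0 (min (x - 1 / 3) (2 / 3 - x))

noncomputable def T (x : ℝ) : ℝ := if x ≤ 1 / 2 then 3 * x else 3 * x - 2

noncomputable def f (x : ℝ) : ℝ := ∑' n : ℕ, (-1 / 3 : ℝ) ^ n * bump (T^[n] x)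

theorem bump_cont : Continuous bump := by
  unfold bump
  fun_prop

theorem bump_nonneg (x : ℝ) : 0 ≤ bump x := le_max_left _ _

theorem bump_le (x : ℝ) : bump x ≤ 1 / 6 := by
  unfold bump
  refine max_le (by norm_num) ?_
  rcases le_total x (1 / 2) with h | h
  · exact (min_le_left _ _).trans (by linarith)
  · exact (min_le_right _ _).trans (by linarith)

theorem bump_zero {x : ℝ} (h : x ≤ 1 / 3 ∨ 2 / 3 ≤ x) : bump x = 0 := by
  unfold bump
  refine max_eq_left ?_
  rcases h with h | h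
  · exact (min_le_left _ _).trans (by linarith)
  · exact (min_le_right _ _).trans (by linarith)

theorem bump_pos {x : ℝ} (h : 1 / 3 < x) (h' : x < 2 / 3) : 0 < bump x := by
  unfold bump
  exact lt_max_of_lt_right (lt_min (by linarith) (by linarith))

theorem T_out {x : ℝ} (h : x ∉ Icc (0 : ℝ) 1) : T x ∉ Icc (0 : ℝ) 1 := by
  unfold T
  intro h2
  apply h
  split_ifs at h2 with h3
  · exact ⟨by linarith [h2.1], by linarith⟩
  · exact ⟨by linarith, by linarith [h2.2]⟩

theorem comp_T {g : ℝ → ℝ} (hg : Continuous g) (h0 : ∀ x, x ∉ Icc (0 : ℝ) 1 → g x = 0) :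
    Continuous (fun x => g (T x)) ∧ ∀ x, x ∉ Icc (0 : ℝ) 1 → g (T x) = 0 := by
  refine ⟨?_, fun x hx => h0 _ (T_out hx)⟩
  have h1 : (fun x => g (T x)) = fun x => if x ≤ 1 / 2 then g (3 * x) else g (3 * x - 2) := by
    funext x
    unfold T
    split_ifs <;> rfl
  rw [h1]
  refine Continuous.if_le (by fun_prop) (by fun_prop) continuous_id continuous_const ?_
  rintro x rfl
  rw [h0, h0]
  · rintro ⟨h, -⟩
    norm_num at h
  · rintro ⟨-, h⟩
    norm_num at h

theorem bump_iter (n : ℕ) : Continuous (fun x => bump (T^[n] x)) ∧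
    ∀ x, x ∉ Icc (0 : ℝ) 1 → bump (T^[n] x) = 0 := by
  induction n with
  | zero =>
    refine ⟨bump_cont, fun x hx => bump_zero ?_⟩
    by_contra h
    push Not at h
    exact hx ⟨by simp at h ⊢; linarith, by simp at h ⊢; linarith⟩
  | succ n ih => exact comp_T ih.1 ih.2

theorem term_bound (n : ℕ) (x : ℝ) :
    ‖(-1 / 3 : ℝ) ^ n * bump (T^[n] x)‖ ≤ (1 / 3 : ℝ) ^ n * (1 / 6) := by
  rw [norm_mul, norm_pow, Real.norm_eq_abs, Real.norm_eq_abs, abs_of_nonneg (bump_nonneg _)]
  have h1 : |(-1 / 3 : ℝ)| = 1 / 3 := by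
    rw [abs_div, abs_neg, abs_one]
    norm_num
  rw [h1]
  exact mul_le_mul_of_nonneg_left (bump_le _) (by positivity)

theorem summable_bound : Summable fun n : ℕ => (1 / 3 : ℝ) ^ n * (1 / 6) :=
  (summable_geometric_of_lt_one (by norm_num) (by norm_num)).mul_right _

theorem summable_term (x : ℝ) : Summable fun n : ℕ => (-1 / 3 : ℝ) ^ n * bump (T^[n] x) :=
  Summable.of_norm_bounded summable_bound fun n => term_bound n x

theorem f_cont : Continuous f :=
  continuous_tsum (fun n => continuous_const.mul (bump_iter n).1) summable_bound term_bound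

theorem f_bound (x : ℝ) : |f x| ≤ 1 / 4 := by
  have h1 : ‖f x‖ ≤ ∑' n : ℕ, (1 / 3 : ℝ) ^ n * (1 / 6) :=
    tsum_of_norm_bounded summable_bound.hasSum fun n => term_bound n x
  rw [tsum_mul_right, tsum_geometric_of_lt_one (by norm_num) (by norm_num)] at h1
  rw [← Real.norm_eq_abs]
  refine h1.trans (le_of_eq ?_)
  norm_num

theorem f_eq (x : ℝ) : f x = bump x - 1 / 3 * f (T x) := by
  unfold f
  rw [(summable_term x).tsum_eq_zero_add]
  simp only [pow_zero, one_mul, Function.iterate_zero, id_eq, Function.iterate_succ,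
    Function.comp_apply]
  have h1 : ∀ n : ℕ, (-1 / 3 : ℝ) ^ (n + 1) * bump (T^[n] (T x)) =
      -(1 / 3) * ((-1 / 3 : ℝ) ^ n * bump (T^[n] (T x))) := by
    intro n
    rw [pow_succ]
    ring
  simp only [h1]
  rw [tsum_mul_left]
  ring

theorem f_out {x : ℝ} (h : x ∉ Icc (0 : ℝ) 1) : f x = 0 := by
  unfold f
  have h1 : ∀ n : ℕ, (-1 / 3 : ℝ) ^ n * bump (T^[n] x) = 0 := fun n => by
    rw [(bump_iter n).2 x h, mul_zero]
  simp only [h1, tsum_zero]

theorem f_mid {x : ℝ} (h : 1 / 3 < x) (h' : x < 2 / 3) : 0 < f x := by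
  rw [f_eq, f_out, mul_zero, sub_zero]
  · exact bump_pos h h'
  · unfold T
    split_ifs with h1
    · rintro ⟨-, h2⟩
      linarith
    · rintro ⟨h2, -⟩
      linarith

theorem f_left {x : ℝ} (h' : x ≤ 1 / 3) : f x = -(1 / 3) * f (3 * x) := by
  rw [f_eq, bump_zero (Or.inl h')]
  unfold T
  rw [if_pos (by linarith)]
  ring

theorem f_right {x : ℝ} (h' : 2 / 3 ≤ x) : f x = -(1 / 3) * f (3 * x - 2) := by
  rw [f_eq, bump_zero (Or.inr h')]
  unfold T
  rw [if_neg (by linarith)]
  ring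

theorem two_signs (n : ℕ) : ∀ z ∈ Icc (0 : ℝ) 1, f z = 0 → ∃ u ∈ Icc (0 : ℝ) 1,
    ∃ v ∈ Icc (0 : ℝ) 1, f u < 0 ∧ 0 < f v ∧ |u - z| ≤ (1 / 3) ^ n ∧ |v - z| ≤ (1 / 3) ^ n ∧
      ((z < u ∧ z < v) ∨ (u < z ∧ v < z)) := by
  have h12 : 0 < f (1 / 2) := f_mid (by norm_num) (by norm_num)
  induction n with
  | zero =>
    intro z hz hfz
    have h1 : z ≤ 1 / 3 ∨ 2 / 3 ≤ z := by
      by_contra h
      push Not at h
      exact absurd (f_mid h.1 h.2) (by rw [hfz]; exact lt_irrefl _)
    rcases h1 with h1 | h1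
    · refine ⟨5 / 6, ⟨by norm_num, by norm_num⟩, 1 / 2, ⟨by norm_num, by norm_num⟩, ?_, h12, ?_, ?_,
        Or.inl ⟨by linarith, by linarith⟩⟩
      · rw [f_right (by norm_num), show (3 * (5 / 6) - 2 : ℝ) = 1 / 2 by norm_num]
        linarith
      · rw [pow_zero, abs_le]
        constructor <;> linarith [hz.1]
      · rw [pow_zero, abs_le]
        constructor <;> linarith [hz.1]
    · refine ⟨1 / 6, ⟨by norm_num, by norm_num⟩, 1 / 2, ⟨by norm_num, by norm_num⟩, ?_, h12, ?_, ?_,
        Or.inr ⟨by linarith, by linarith⟩⟩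
      · rw [f_left (by norm_num), show (3 * (1 / 6) : ℝ) = 1 / 2 by norm_num]
        linarith
      · rw [pow_zero, abs_le]
        constructor <;> linarith [hz.2]
      · rw [pow_zero, abs_le]
        constructor <;> linarith [hz.2]
  | succ n ih =>
    intro z hz hfz
    have h1 : z ≤ 1 / 3 ∨ 2 / 3 ≤ z := by
      by_contra h
      push Not at h
      exact absurd (f_mid h.1 h.2) (by rw [hfz]; exact lt_irrefl _)
    rcases h1 with h1 | h1
    · have h2 : f (3 * z) = 0 := by
        have := f_left h1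
        linarith
      obtain ⟨u, hu, v, hv, hfu, hfv, hdu, hdv, hs⟩ := ih (3 * z)
        ⟨by linarith [hz.1], by linarith⟩ h2
      refine ⟨v / 3, ⟨by linarith [hv.1], by linarith [hv.2]⟩, u / 3,
        ⟨by linarith [hu.1], by linarith [hu.2]⟩, ?_, ?_, ?_, ?_, ?_⟩
      · rw [f_left (by linarith [hv.2]), show 3 * (v / 3) = v by ring]
        linarith
      · rw [f_left (by linarith [hu.2]), show 3 * (u / 3) = u by ring]
        linarith
      · rw [abs_le] at hdv ⊢
        rw [pow_succ]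
        constructor <;> linarith [hdv.1, hdv.2]
      · rw [abs_le] at hdu ⊢
        rw [pow_succ]
        constructor <;> linarith [hdu.1, hdu.2]
      · rcases hs with ⟨h3, h4⟩ | ⟨h3, h4⟩
        · exact Or.inl ⟨by linarith, by linarith⟩
        · exact Or.inr ⟨by linarith, by linarith⟩
    · have h2 : f (3 * z - 2) = 0 := by
        have := f_right h1
        linarith
      obtain ⟨u, hu, v, hv, hfu, hfv, hdu, hdv, hs⟩ := ih (3 * z - 2)
        ⟨by linarith, by linarith [hz.2]⟩ h2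
      refine ⟨(v + 2) / 3, ⟨by linarith [hv.1], by linarith [hv.2]⟩, (u + 2) / 3,
        ⟨by linarith [hu.1], by linarith [hu.2]⟩, ?_, ?_, ?_, ?_, ?_⟩
      · rw [f_right (by linarith [hv.1]), show 3 * ((v + 2) / 3) - 2 = v by ring]
        linarith
      · rw [f_right (by linarith [hu.1]), show 3 * ((u + 2) / 3) - 2 = u by ring]
        linarith
      · rw [abs_le] at hdv ⊢
        rw [pow_succ]
        constructor <;> linarith [hdv.1, hdv.2]
      · rw [abs_le] at hdu ⊢
        rw [pow_succ]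
        constructor <;> linarith [hdu.1, hdu.2]
      · rcases hs with ⟨h3, h4⟩ | ⟨h3, h4⟩
        · exact Or.inl ⟨by linarith, by linarith⟩
        · exact Or.inr ⟨by linarith, by linarith⟩

/-- in every neighbourhood of a zero `f` takes both signs on one side -/
theorem both_signs {z : ℝ} (hz : z ∈ Icc (0 : ℝ) 1) (hfz : f z = 0) {δ : ℝ} (hδ : 0 < δ) :
    ∃ u v : ℝ, f u < 0 ∧ 0 < f v ∧ |u - z| < δ ∧ |v - z| < δ ∧
      ((z < u ∧ z < v) ∨ (u < z ∧ v < z)) := by
  obtain ⟨n, hn⟩ := exists_pow_lt_of_lt_one hδ (show (1 / 3 : ℝ) < 1 by norm_num)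
  obtain ⟨u, -, v, -, h1, h2, h3, h4, h5⟩ := two_signs n z hz hfz
  exact ⟨u, v, h1, h2, h3.trans_lt hn, h4.trans_lt hn, h5⟩

end Pool.Agent.E8helper48.Core
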