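import Pool.Agent.E8helper48.Core.Space

/-! The lift `L` of `K` to the square. -/

set_option autoImplicit false
set_option linter.unusedSectionVars false

namespace Pool.Agent.E8helper48.Core

open Set Topology Filter

theorem tau_cont : Continuous tau := by
  unfold tau
  exact ((AddCircle.continuous_mk' (1 : ℝ)).comp
      (Complex.continuous_re.comp continuous_subtype_val)).prodMk
    ((AddCircle.continuous_mk' (1 : ℝ)).comp
      (Complex.continuous_im.comp continuous_subtype_val))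

instance : CompactSpace Square := by
  have h1 : IsCompact {z : ℂ | z.re ∈ Icc (0 : ℝ) 1 ∧ z.im ∈ Icc (0 : ℝ) 1} :=
    (isCompact_Icc (a := (0 : ℝ)) (b := 1)).reProdIm (isCompact_Icc (a := (0 : ℝ)) (b := 1))
  exact isCompact_iff_compactSpace.1 h1

/-- the lift of `K` -/
abbrev LL : Type := ↥(tau ⁻¹' KK)

instance : CompactSpace LL :=
  isCompact_iff_compactSpace.1 (KK_compact.isClosed.preimage tau_cont).isCompact

def kL (z : LL) : KK := ⟨tau z.1, z.2⟩

theorem kL_cont : Continuous kL := (tau_cont.comp continuous_subtype_val).subtype_mk _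

noncomputable def side (z : LL) : ℝ := z.1.1.im - (f (xK (kL z)) + tK (kL z))

noncomputable def xL (z : LL) : ℝ := xK (kL z) + 2 * side z

noncomputable def tL (z : LL) : ℝ := tK (kL z)

theorem side_cont : Continuous side :=
  (Complex.continuous_im.comp (continuous_subtype_val.comp continuous_subtype_val)).sub
    ((f_cont.comp (xK_cont.comp kL_cont)).add (tK_cont.comp kL_cont))

theorem xL_cont : Continuous xL := (xK_cont.comp kL_cont).add (continuous_const.mul side_cont)

theorem tL_cont : Continuous tL := tK_cont.comp kL_cont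

theorem re_L (z : LL) : z.1.1.re = 1 / 4 + xK (kL z) / 2 := by
  have h1 : ((1 / 4 + xK (kL z) / 2 : ℝ) : AddCircle (1 : ℝ)) = (z.1.1.re : AddCircle (1 : ℝ)) :=
    congrArg Prod.fst (psi_coord (kL z))
  refine (coe_inj h1 ?_).symm
  have h2 := xK_mem (kL z)
  have h3 := z.1.2.1
  rw [abs_lt]
  constructor <;> linarith [h2.1, h2.2, h3.1, h3.2]

theorem side_cases (z : LL) : (side z = 0 ∧ 0 ≤ f (xK (kL z)) + tL z) ∨
    (side z = 1 ∧ f (xK (kL z)) + tL z ≤ 0) := by
  have h1 : (z.1.1.im : AddCircle (1 : ℝ)) =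
      ((f (xK (kL z)) + tK (kL z) : ℝ) : AddCircle (1 : ℝ)) :=
    (congrArg Prod.snd (psi_coord (kL z))).symm
  obtain ⟨n, hn⟩ := coe_eq h1
  have h2 := fr_mem (x := xK (kL z)) (tK_mem (kL z))
  have h3 := z.1.2.2
  have h4 : (-1 : ℝ) < n := by linarith [h2.1, h2.2, h3.1, h3.2]
  have h5 : (n : ℝ) < 2 := by linarith [h2.1, h2.2, h3.1, h3.2]
  have h6 : -1 < n := by exact_mod_cast h4
  have h7 : n < 2 := by exact_mod_cast h5
  have h8 : n = 0 ∨ n = 1 := by omega
  have h9 : side z = n := hn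
  rcases h8 with rfl | rfl
  · left
    refine ⟨by simpa using h9, ?_⟩
    change 0 ≤ f (xK (kL z)) + tK (kL z)
    simp at hn
    linarith [h3.1]
  · right
    refine ⟨by simpa using h9, ?_⟩
    change f (xK (kL z)) + tK (kL z) ≤ 0
    simp at hn
    linarith [h3.2]

theorem L_ext {z w : LL} (h : xL z = xL w) (h' : tL z = tL w) : z = w := by
  have h1 := xK_mem (kL z)
  have h2 := xK_mem (kL w)
  have h3 : side z = side w := by
    unfold xL at h
    rcases side_cases z with ⟨hz, -⟩ | ⟨hz, -⟩ <;> rcases side_cases w with ⟨hw, -⟩ | ⟨hw, -⟩ <;>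
      rw [hz, hw] at h <;> rw [hz, hw] <;> linarith [h1.1, h1.2, h2.1, h2.2]
  have h4 : xK (kL z) = xK (kL w) := by
    unfold xL at h
    rw [h3] at h
    linarith
  have h5 : kL z = kL w := coordK_ext h4 h'
  have h6 : z.1.1.im = w.1.1.im := by
    unfold side at h3
    rw [h5] at h3
    linarith
  apply Subtype.ext
  apply Subtype.ext
  apply Complex.ext
  · rw [re_L, re_L, h4]
  · exact h6

theorem coordL : Coord xL tL where
  cξ := xL_cont
  ct := tL_cont
  inj := fun _ _ => L_ext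
  nonneg := fun k => TT_nonneg (tK_mem _)
  fin := fun δ hδ => (TT_fin hδ).subset fun r hr => ⟨hr.1, by
    obtain ⟨k, rfl⟩ := hr.2
    exact tK_mem _⟩

/-- points of the lower edge side -/
theorem ex0 {x r : ℝ} (hx : x ∈ Icc (0 : ℝ) 1) (hr : r ∈ TT) (h : 0 ≤ f x + r) :
    ∃ z : LL, kL z = pK x r hx hr ∧ side z = 0 ∧ xL z = x ∧ tL z = r := by
  have h1 := fr_mem (x := x) hr
  let z0 : Square := ⟨⟨1 / 4 + x / 2, f x + r⟩, by
    constructor <;> simp only <;> linarith [hx.1, hx.2], ⟨h, by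
      simp only
      linarith [h1.2]⟩⟩
  have h2 : tau z0 = psi (x, r) := rfl
  let z : LL := ⟨z0, ⟨(x, r), ⟨hx, hr⟩, h2.symm⟩⟩
  have hk : kL z = pK x r hx hr := rfl
  have hs : side z = 0 := by
    unfold side
    rw [hk, xK_pK, tK_pK]
    change f x + r - (f x + r) = 0
    ring
  refine ⟨z, hk, hs, ?_, ?_⟩
  · unfold xL
    rw [hs, hk, xK_pK]
    ring
  · unfold tL
    rw [hk, tK_pK]

/-- points of the upper edge side -/
theorem ex1 {x r : ℝ} (hx : x ∈ Icc (0 : ℝ) 1) (hr : r ∈ TT) (h : f x + r ≤ 0) :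
    ∃ z : LL, kL z = pK x r hx hr ∧ side z = 1 ∧ xL z = x + 2 ∧ tL z = r := by
  have h1 := fr_mem (x := x) hr
  let z0 : Square := ⟨⟨1 / 4 + x / 2, f x + r + 1⟩, by
    constructor <;> simp only <;> linarith [hx.1, hx.2], ⟨by
      simp only
      linarith [h1.1], by
      simp only
      linarith⟩⟩
  have h2 : tau z0 = psi (x, r) := by
    unfold tau psi
    simp only [z0]
    rw [AddCircle.coe_add_period]
  let z : LL := ⟨z0, ⟨(x, r), ⟨hx, hr⟩, h2.symm⟩⟩
  have hk : kL z = pK x r hx hr := Subtype.ext h2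
  have hs : side z = 1 := by
    unfold side
    rw [hk, xK_pK, tK_pK]
    change f x + r + 1 - (f x + r) = 1
    ring
  refine ⟨z, hk, hs, ?_, ?_⟩
  · unfold xL
    rw [hs, hk, xK_pK]
    ring
  · unfold tL
    rw [hk, tK_pK]

theorem xL_cases (z : LL) : (side z = 0 ∧ xL z = xK (kL z) ∧ 0 ≤ f (xK (kL z)) + tL z) ∨
    (side z = 1 ∧ xL z = xK (kL z) + 2 ∧ f (xK (kL z)) + tL z ≤ 0) := by
  rcases side_cases z with ⟨h, h'⟩ | ⟨h, h'⟩
  · left
    exact ⟨h, by unfold xL; rw [h]; ring, h'⟩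
  · right
    exact ⟨h, by unfold xL; rw [h]; ring, h'⟩

/-- the segments of `L` -/
theorem SC_L_iff (a b : LL) : SC xL tL a b ↔ tL b = tL a ∧
    ((side a = 0 ∧ side b = 0 ∧ ∀ s ∈ uIcc (xK (kL a)) (xK (kL b)), 0 ≤ f s + tL a) ∨
     (side a = 1 ∧ side b = 1 ∧ ∀ s ∈ uIcc (xK (kL a)) (xK (kL b)), f s + tL a ≤ 0)) := by
  have hma := xK_mem (kL a)
  have hmb := xK_mem (kL b)
  constructor
  · rintro ⟨h1, h2⟩
    refine ⟨h1, ?_⟩
    have hmid : ¬ (3 / 2 : ℝ) ∈ uIcc (xL a) (xL b) := by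
      intro h
      obtain ⟨z, hz, -⟩ := h2 _ h
      have hmz := xK_mem (kL z)
      rcases xL_cases z with ⟨-, h3, -⟩ | ⟨-, h3, -⟩ <;> linarith [hmz.1, hmz.2]
    rcases xL_cases a with ⟨ha, hxa, -⟩ | ⟨ha, hxa, -⟩ <;>
      rcases xL_cases b with ⟨hb, hxb, -⟩ | ⟨hb, hxb, -⟩
    · left
      refine ⟨ha, hb, fun s hs => ?_⟩
      rw [hxa, hxb] at h2
      obtain ⟨z, hz, hzt⟩ := h2 s hs
      have hs1 := (ordConnected_Icc.uIcc_subset hma hmb) hs
      have hmz := xK_mem (kL z)
      rcases xL_cases z with ⟨-, h3, h4⟩ | ⟨-, h3, -⟩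
      · rw [← h3, hz, hzt] at h4
        exact h4
      · exfalso
        linarith [hmz.1, hs1.2]
    · exfalso
      apply hmid
      rw [hxa, hxb]
      exact mem_uIcc.2 (Or.inl ⟨by linarith [hma.2], by linarith [hmb.1]⟩)
    · exfalso
      apply hmid
      rw [hxa, hxb]
      exact mem_uIcc.2 (Or.inr ⟨by linarith [hmb.2], by linarith [hma.1]⟩)
    · right
      refine ⟨ha, hb, fun s hs => ?_⟩
      rw [hxa, hxb] at h2
      have hs' : s + 2 ∈ uIcc (xK (kL a) + 2) (xK (kL b) + 2) := by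
        rw [mem_uIcc] at hs ⊢
        rcases hs with hs | hs
        · exact Or.inl ⟨by linarith [hs.1], by linarith [hs.2]⟩
        · exact Or.inr ⟨by linarith [hs.1], by linarith [hs.2]⟩
      obtain ⟨z, hz, hzt⟩ := h2 _ hs'
      have hs1 := (ordConnected_Icc.uIcc_subset hma hmb) hs
      have hmz := xK_mem (kL z)
      rcases xL_cases z with ⟨-, h3, h4⟩ | ⟨-, h3, h4⟩
      · exfalso
        linarith [hmz.2, hs1.1]
      · have h5 : xK (kL z) = s := by linarith
        rw [h5, hzt] at h4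
        exact h4
  · rintro ⟨h1, ⟨ha, hb, h2⟩ | ⟨ha, hb, h2⟩⟩
    · refine ⟨h1, fun s hs => ?_⟩
      have hxa : xL a = xK (kL a) := by unfold xL; rw [ha]; ring
      have hxb : xL b = xK (kL b) := by unfold xL; rw [hb]; ring
      rw [hxa, hxb] at hs
      have hs1 := (ordConnected_Icc.uIcc_subset hma hmb) hs
      obtain ⟨z, -, -, hz, hzt⟩ := ex0 hs1 (tK_mem (kL a)) (h2 s hs)
      exact ⟨z, hz, hzt⟩
    · refine ⟨h1, fun s hs => ?_⟩
      have hxa : xL a = xK (kL a) + 2 := by unfold xL; rw [ha]; ring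
      have hxb : xL b = xK (kL b) + 2 := by unfold xL; rw [hb]; ring
      rw [hxa, hxb] at hs
      have hs' : s - 2 ∈ uIcc (xK (kL a)) (xK (kL b)) := by
        rw [mem_uIcc] at hs ⊢
        rcases hs with hs | hs
        · exact Or.inl ⟨by linarith [hs.1], by linarith [hs.2]⟩
        · exact Or.inr ⟨by linarith [hs.1], by linarith [hs.2]⟩
      have hs1 := (ordConnected_Icc.uIcc_subset hma hmb) hs'
      obtain ⟨z, -, -, hz, hzt⟩ := ex1 hs1 (tK_mem (kL a)) (h2 _ hs')
      exact ⟨z, by rw [hz]; ring, hzt⟩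

/-- between the ends of an arch the function does not vanish -/
theorem neg_inside {a b : ℝ} (ha : a ∈ Icc (0 : ℝ) 1) (hb : b ∈ Icc (0 : ℝ) 1)
    (h : ∀ s ∈ uIcc a b, f s ≤ 0) {s : ℝ} (hs : s ∈ uIcc a b) (hsa : s ≠ a) (hsb : s ≠ b) :
    f s < 0 := by
  rcases (h s hs).lt_or_eq with h1 | h1
  · exact h1
  exfalso
  have hs1 := (ordConnected_Icc.uIcc_subset ha hb) hs
  have hδ : 0 < min |s - a| |s - b| :=
    lt_min (abs_pos.2 (sub_ne_zero.2 hsa)) (abs_pos.2 (sub_ne_zero.2 hsb))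
  obtain ⟨u, v, -, hv, -, hvs, -⟩ := both_signs hs1 h1 hδ
  have hv1 := hvs.trans_le (min_le_left _ _)
  have hv2 := hvs.trans_le (min_le_right _ _)
  refine absurd (h v ?_) (not_le.2 hv)
  rw [mem_uIcc] at hs ⊢
  rcases hs with hs | hs
  · left
    rw [abs_of_nonneg (a := s - a) (by linarith [hs.1])] at hv1
    rw [abs_of_nonpos (a := s - b) (by linarith [hs.2])] at hv2
    rw [abs_lt] at hv1 hv2
    exact ⟨by linarith [hv1.1], by linarith [hv2.2]⟩
  · right
    rw [abs_of_nonpos (a := s - a) (by linarith [hs.2])] at hv1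
    rw [abs_of_nonneg (a := s - b) (by linarith [hs.1])] at hv2
    rw [abs_lt] at hv1 hv2
    exact ⟨by linarith [hv2.1], by linarith [hv1.2]⟩

theorem isCore_L : IsCore (DX xL tL) := by
  refine isCore_DX coordL fun a b hne h0 h => ?_
  have hb0 : tL b = 0 := h.1.trans h0
  have hma := xK_mem (kL a)
  have hmb := xK_mem (kL b)
  rcases (SC_L_iff a b).1 h with ⟨h1, ⟨ha, hb, h2⟩ | ⟨ha, hb, h2⟩⟩
  · -- lower copy
    rw [h0] at h2
    have hxa : xL a = xK (kL a) := by unfold xL; rw [ha]; ring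
    have hxb : xL b = xK (kL b) := by unfold xL; rw [hb]; ring
    have hpos : ∀ n : ℕ, (0 : ℝ) ≤ (1 : ℝ) / ((n : ℝ) + 5) := fun n => by positivity
    have hA := fun n : ℕ => ex0 hma (tn_mem n) (by linarith [h2 _ left_mem_uIcc, hpos n])
    have hB := fun n : ℕ => ex0 hmb (tn_mem n) (by linarith [h2 _ right_mem_uIcc, hpos n])
    choose u hu1 hu2 hu3 hu4 using hA
    choose v hv1 hv2 hv3 hv4 using hB
    have tu : Tendsto u atTop (𝓝 a) := by
      refine tendsto_of_coord coordL ?_ ?_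
      · simp only [hu3, hxa]
        exact tendsto_const_nhds
      · simp only [hu4, h0]
        exact tn_tendsto
    have tv : Tendsto v atTop (𝓝 b) := by
      refine tendsto_of_coord coordL ?_ ?_
      · simp only [hv3, hxb]
        exact tendsto_const_nhds
      · simp only [hv4, hb0]
        exact tn_tendsto
    refine mem_closure_of_tendsto (tu.prodMk_nhds tv) (Eventually.of_forall fun n => ⟨?_, ?_⟩)
    · refine (SC_L_iff _ _).2 ⟨by rw [hu4, hv4], Or.inl ⟨hu2 n, hv2 n, fun s hs => ?_⟩⟩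
      simp only [hu1, hv1, xK_pK] at hs
      simp only [hu4]
      linarith [h2 s hs, hpos n]
    · simp only [hu4]
      exact tn_ne n
  · -- upper copy
    rw [h0] at h2
    simp only [add_zero] at h2
    have hxa : xL a = xK (kL a) + 2 := by unfold xL; rw [ha]; ring
    have hxb : xL b = xK (kL b) + 2 := by unfold xL; rw [hb]; ring
    set x := xK (kL a) with hx
    set y := xK (kL b) with hy
    have hxy : x ≠ y := by
      intro hxy
      apply hne
      exact L_ext (by rw [hxa, hxb, hxy]) (by rw [h0, hb0])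
    let c : ℕ → ℝ := fun n => 1 / ((n : ℝ) + 5)
    have hc0 : ∀ n, 0 < c n := fun n => by positivity
    have hc1 : ∀ n, c n ≤ 1 / 5 := fun n => TT_le (tn_mem n)
    have hct : Tendsto c atTop (𝓝 0) := tn_tendsto
    let p : ℕ → ℝ := fun n => (1 - c n) * x + c n * y
    let q : ℕ → ℝ := fun n => c n * x + (1 - c n) * y
    have hin : ∀ n, ∀ s ∈ uIcc (p n) (q n), s ∈ uIcc x y ∧ s ≠ x ∧ s ≠ y := by
      intro n s hs
      have h3 := hc0 n
      have h4 := hc1 n
      rw [mem_uIcc] at hs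
      simp only [p, q] at hs
      rcases lt_or_gt_of_ne hxy with hlt | hlt
      · have h5 : 0 < c n * (y - x) := mul_pos h3 (by linarith)
        have h6 : c n * (y - x) ≤ 1 / 5 * (y - x) :=
          mul_le_mul_of_nonneg_right h4 (by linarith)
        have h7 : x < s ∧ s < y := by
          rcases hs with hs | hs <;> constructor <;> nlinarith [hs.1, hs.2]
        exact ⟨mem_uIcc.2 (Or.inl ⟨h7.1.le, h7.2.le⟩), h7.1.ne', h7.2.ne⟩
      · have h5 : 0 < c n * (x - y) := mul_pos h3 (by linarith)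
        have h6 : c n * (x - y) ≤ 1 / 5 * (x - y) :=
          mul_le_mul_of_nonneg_right h4 (by linarith)
        have h7 : y < s ∧ s < x := by
          rcases hs with hs | hs <;> constructor <;> nlinarith [hs.1, hs.2]
        exact ⟨mem_uIcc.2 (Or.inr ⟨h7.1.le, h7.2.le⟩), h7.2.ne, h7.1.ne'⟩
    have hneg : ∀ n, ∀ s ∈ uIcc (p n) (q n), f s < 0 := fun n s hs =>
      neg_inside hma hmb h2 (hin n s hs).1 (hin n s hs).2.1 (hin n s hs).2.2
    have hm : ∀ n : ℕ, ∃ m : ℕ, n ≤ m ∧ ∀ s ∈ uIcc (p n) (q n),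
        f s + (1 : ℝ) / ((m : ℝ) + 5) ≤ 0 := by
      intro n
      obtain ⟨s0, hs0, hmax⟩ := (isCompact_uIcc (a := p n) (b := q n)).exists_isMaxOn
        ⟨_, left_mem_uIcc⟩ f_cont.continuousOn
      have h3 := hneg n s0 hs0
      have h4 : ∀ᶠ m : ℕ in atTop, (1 : ℝ) / ((m : ℝ) + 5) < -f s0 :=
        tn_tendsto.eventually_lt_const (by linarith)
      obtain ⟨m, hm1, hm2⟩ := (h4.and (eventually_ge_atTop n)).exists
      refine ⟨m, hm2, fun s hs => ?_⟩
      have h5 : f s ≤ f s0 := hmax hs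
      linarith
    choose m hm1 hm2 using hm
    have hpm : ∀ n, p n ∈ Icc (0 : ℝ) 1 := fun n =>
      (ordConnected_Icc.uIcc_subset hma hmb) (hin n _ left_mem_uIcc).1
    have hqm : ∀ n, q n ∈ Icc (0 : ℝ) 1 := fun n =>
      (ordConnected_Icc.uIcc_subset hma hmb) (hin n _ right_mem_uIcc).1
    have hA := fun n : ℕ => ex1 (hpm n) (tn_mem (m n)) (hm2 n _ left_mem_uIcc)
    have hB := fun n : ℕ => ex1 (hqm n) (tn_mem (m n)) (hm2 n _ right_mem_uIcc)
    choose u hu1 hu2 hu3 hu4 using hA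
    choose v hv1 hv2 hv3 hv4 using hB
    have hmt : Tendsto m atTop atTop := tendsto_atTop_mono hm1 tendsto_id
    have tp : Tendsto p atTop (𝓝 x) := by
      have : Tendsto p atTop (𝓝 ((1 - 0) * x + 0 * y)) :=
        ((tendsto_const_nhds.sub hct).mul_const x).add (hct.mul_const y)
      simpa using this
    have tq : Tendsto q atTop (𝓝 y) := by
      have : Tendsto q atTop (𝓝 (0 * x + (1 - 0) * y)) :=
        (hct.mul_const x).add ((tendsto_const_nhds.sub hct).mul_const y)
      simpa using this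
    have tu : Tendsto u atTop (𝓝 a) := by
      refine tendsto_of_coord coordL ?_ ?_
      · simp only [hu3, hxa]
        exact tp.add_const 2
      · simp only [hu4, h0]
        exact tn_tendsto.comp hmt
    have tv : Tendsto v atTop (𝓝 b) := by
      refine tendsto_of_coord coordL ?_ ?_
      · simp only [hv3, hxb]
        exact tq.add_const 2
      · simp only [hv4, hb0]
        exact tn_tendsto.comp hmt
    refine mem_closure_of_tendsto (tu.prodMk_nhds tv) (Eventually.of_forall fun n => ⟨?_, ?_⟩)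
    · refine (SC_L_iff _ _).2 ⟨by rw [hu4, hv4], Or.inr ⟨hu2 n, hv2 n, fun s hs => ?_⟩⟩
      simp only [hu1, hv1, xK_pK] at hs
      simp only [hu4]
      exact hm2 n s hs
    · simp only [hu4]
      exact tn_ne (m n)

end Pool.Agent.E8helper48.Core
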