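import Pool.Agent.E8helper48.Core.Peano

/-! The components of the quotient by `DX` form a null sequence; `DX` is the core decomposition. -/

set_option autoImplicit false
set_option linter.unusedSectionVars false

namespace Pool.Agent.E8helper48.Core

open Set Topology Filter

variable {X : Type} [TopologicalSpace X] [CompactSpace X] [T2Space X]

theorem null_components {Y : Type} [MetricSpace Y] {ξ t : X → ℝ} (H : Coord ξ t)
    (q : X → Y) (hq : IsQuotientMap q) (hconn : ∀ y, IsConnected (q ⁻¹' {y}))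
    (hD : ∀ x y, t x = 0 → SC ξ t x y → q x = q y) (ε : ℝ) (hε : 0 < ε) :
    {C : Set Y | (∃ y, C = connectedComponent y) ∧ ε < Metric.diam C}.Finite := by
  set S : Set (Set Y) := {C : Set Y | (∃ y, C = connectedComponent y) ∧ ε < Metric.diam C} with hS
  by_contra hinf
  -- choose pairs
  have hex : ∀ C ∈ S, ∃ p : X × X, SC ξ t p.1 p.2 ∧ ε < dist (q p.1) (q p.2) ∧
      C = connectedComponent (q p.1) := by
    rintro C ⟨⟨y, rfl⟩, hd⟩
    obtain ⟨x, rfl⟩ := hq.surjective y
    have h1 : ¬ ∀ a ∈ connectedComponent (q x), ∀ b ∈ connectedComponent (q x),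
        dist a b ≤ ε := fun h => absurd (Metric.diam_le_of_forall_dist_le hε.le h) (not_le.2 hd)
    push Not at h1
    obtain ⟨a, ha, b, hb, hab⟩ := h1
    rw [← hq.isCoinducing.image_connectedComponent hconn] at ha hb
    obtain ⟨u, hu, rfl⟩ := ha
    obtain ⟨v, hv, rfl⟩ := hb
    refine ⟨(u, v), ?_, hab, ?_⟩
    · exact (SC_of_mem H hu).symm.trans (SC_of_mem H hv)
    · have h2 : q u ∈ connectedComponent (q x) :=
        hq.continuous.image_connectedComponent_subset x ⟨u, hu, rfl⟩
      exact connectedComponent_eq h2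
  obtain ⟨C0, hC0⟩ := Set.Infinite.nonempty hinf
  have : Nonempty (X × X) := ⟨(hex C0 hC0).choose⟩
  choose! p hp1 hp2 hp3 using hex
  have hinj : InjOn p S := by
    intro C hC C' hC' h
    rw [hp3 C hC, hp3 C' hC', h]
  have hPinf : (p '' S).Infinite := Set.Infinite.image hinj hinf
  obtain ⟨⟨x, y⟩, -, hacc⟩ :=
    hPinf.exists_accPt_of_subset_isCompact isCompact_univ (subset_univ _)
  have hcl : (x, y) ∈ closure (p '' S) := hacc.clusterPt.mem_closure
  have hSC : SC ξ t x y := by
    have h1 : p '' S ⊆ {p : X × X | SC ξ t p.1 p.2} := by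
      rintro _ ⟨C, hC, rfl⟩
      exact hp1 C hC
    exact closure_minimal h1 (isClosed_SC H) hcl
  have hdist : ε ≤ dist (q x) (q y) := by
    have h1 : p '' S ⊆ {p : X × X | ε ≤ dist (q p.1) (q p.2)} := by
      rintro _ ⟨C, hC, rfl⟩
      exact (hp2 C hC).le
    have h2 : IsClosed {p : X × X | ε ≤ dist (q p.1) (q p.2)} := isClosed_le continuous_const
      ((hq.continuous.comp continuous_fst).dist (hq.continuous.comp continuous_snd))
    exact closure_minimal h1 h2 hcl
  have hqne : q x ≠ q y := fun h => by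
    rw [h, dist_self] at hdist
    linarith
  by_cases hx : t x = 0
  · exact hqne (hD x y hx hSC)
  · have hxpos : 0 < t x := lt_of_le_of_ne (H.nonneg x) (Ne.symm hx)
    have hξ : ξ x ≠ ξ y := fun h => hqne (by rw [H.inj x y h hSC.1.symm])
    obtain ⟨m, hm⟩ : ∃ m, (ξ x < m ∧ m < ξ y) ∨ (ξ y < m ∧ m < ξ x) := by
      rcases lt_or_gt_of_ne hξ with h | h
      · exact ⟨(ξ x + ξ y) / 2, Or.inl ⟨by linarith, by linarith⟩⟩
      · exact ⟨(ξ x + ξ y) / 2, Or.inr ⟨by linarith, by linarith⟩⟩
    have hmI : m ∈ uIcc (ξ x) (ξ y) := by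
      rcases hm with h | h
      · exact mem_uIcc.2 (Or.inl ⟨h.1.le, h.2.le⟩)
      · exact mem_uIcc.2 (Or.inr ⟨h.1.le, h.2.le⟩)
    obtain ⟨z0, hz0, hz0t⟩ := hSC.2 m hmI
    -- neighbourhood
    set F : Set ℝ := {r | t x / 2 ≤ r ∧ ∃ x, t x = r} with hF
    have hFf : F.Finite := H.fin _ (by linarith)
    set N : Set (X × X) := {p | t x / 2 < t p.1} ∩ {p | t p.1 ∈ (F \ {t x})ᶜ} ∩
      ({p | ξ p.1 < m ∧ m < ξ p.2} ∪ {p | ξ p.2 < m ∧ m < ξ p.1}) with hN
    have hNo : IsOpen N := by
      have hc1 : Continuous fun p : X × X => t p.1 := H.ct.comp continuous_fst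
      have hc2 : Continuous fun p : X × X => ξ p.1 := H.cξ.comp continuous_fst
      have hc3 : Continuous fun p : X × X => ξ p.2 := H.cξ.comp continuous_snd
      refine ((isOpen_lt continuous_const hc1).inter
        ((hFf.subset sdiff_subset).isClosed.isOpen_compl.preimage hc1)).inter ?_
      exact ((isOpen_lt hc2 continuous_const).inter (isOpen_lt continuous_const hc3)).union
        ((isOpen_lt hc3 continuous_const).inter (isOpen_lt continuous_const hc2))
    have hxN : (x, y) ∈ N := by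
      refine ⟨⟨?_, ?_⟩, ?_⟩
      · change t x / 2 < t x
        linarith
      · exact fun h => h.2 rfl
      · rcases hm with h | h
        · exact Or.inl h
        · exact Or.inr h
    have hNC : ∀ C ∈ S, p C ∈ N → C = connectedComponent (q z0) := by
      rintro C hC ⟨⟨h1, h2⟩, h3⟩
      have h4 : t (p C).1 = t x := by
        by_contra hne
        exact h2 ⟨⟨le_of_lt h1, _, rfl⟩, hne⟩
      have h5 : m ∈ uIcc (ξ (p C).1) (ξ (p C).2) := by
        rcases h3 with h3 | h3
        · exact mem_uIcc.2 (Or.inl ⟨h3.1.le, h3.2.le⟩)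
        · exact mem_uIcc.2 (Or.inr ⟨h3.1.le, h3.2.le⟩)
      have h6 : SC ξ t (p C).1 z0 := (hp1 C hC).sub (by rw [hz0t, h4]) (by rw [hz0]; exact h5)
      have h7 : z0 ∈ connectedComponent (p C).1 := (mem_component_iff H _ _).2 h6
      rw [hp3 C hC]
      exact connectedComponent_eq (hq.continuous.image_connectedComponent_subset _ ⟨z0, h7, rfl⟩)
    -- two different elements of `p '' S` in `N`
    have hinf2 : (N ∩ p '' S).Infinite := by
      have h8 := accPt_iff_frequently.1 hacc
      intro hfin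
      have h9 : ((N ∩ (p '' S)) \ {(x, y)}).Finite := hfin.subset sdiff_subset
      have h10 : ∀ᶠ w in 𝓝 ((x, y) : X × X), w ∈ N ∩ ((N ∩ (p '' S)) \ {(x, y)})ᶜ := by
        refine (hNo.inter h9.isClosed.isOpen_compl).mem_nhds ⟨hxN, fun h => h.2 rfl⟩
      obtain ⟨w, ⟨hw1, hw2⟩, hw3, hw4⟩ := (h8.and_eventually h10).exists
      exact hw4 ⟨⟨hw3, hw2⟩, hw1⟩
    obtain ⟨a, ⟨haN, C, hC, hCa⟩, b, ⟨hbN, C', hC', hCb⟩, hab⟩ := hinf2.nontrivial
    apply hab
    rw [← hCa, ← hCb]
    rw [← hCa] at haN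
    rw [← hCb] at hbN
    rw [hNC C hC haN, hNC C' hC' hbN]

theorem peano_quotient {Y : Type} [MetricSpace Y] {ξ t : X → ℝ} (H : Coord ξ t)
    (q : X → Y) (hq : IsQuotientMap q) (hconn : ∀ y, IsConnected (q ⁻¹' {y}))
    (hD : ∀ x y, t x = 0 → SC ξ t x y → q x = q y) : PeanoCompactum Y :=
  ⟨hq.surjective.compactSpace hq.continuous, fun ε hε => null_components H q hq hconn hD ε hε,
    fun y _ => component_lc H q hq hconn y⟩

/-- convergence in the coordinates is convergence -/
theorem tendsto_of_coord {ξ t : X → ℝ} (H : Coord ξ t) {u : ℕ → X} {x : X}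
    (h1 : Tendsto (fun n => ξ (u n)) atTop (𝓝 (ξ x)))
    (h2 : Tendsto (fun n => t (u n)) atTop (𝓝 (t x))) : Tendsto u atTop (𝓝 x) := by
  have he : IsClosedEmbedding (fun x : X => (ξ x, t x)) :=
    (H.cξ.prodMk H.ct).isClosedEmbedding fun x y hxy =>
      H.inj x y (congrArg Prod.fst hxy) (congrArg Prod.snd hxy)
  rw [he.isEmbedding.tendsto_nhds_iff]
  exact h1.prodMk_nhds h2

/-- **`DX` is the core decomposition.** -/
theorem isCore_DX {ξ t : X → ℝ} (H : Coord ξ t)
    (hlim : ∀ x y, x ≠ y → t x = 0 → SC ξ t x y →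
      (x, y) ∈ closure {p : X × X | SC ξ t p.1 p.2 ∧ t p.1 ≠ 0}) : IsCore (DX ξ t) := by
  refine ⟨⟨DX_continua H, ?_⟩, ?_⟩
  · obtain ⟨Φ, hΦ, h⟩ := exists_map H
    obtain ⟨m, hm⟩ := metric_of_map (DX ξ t) Φ hΦ h
    refine ⟨m, hm, ?_⟩
    have hq : @IsQuotientMap X (Quotient (DX ξ t)) _ m.toUniformSpace.toTopologicalSpace
        (Quotient.mk (DX ξ t)) := by
      rw [hm]
      exact isQuotientMap_quotient_mk'
    have hconn : ∀ y : Quotient (DX ξ t), IsConnected (Quotient.mk (DX ξ t) ⁻¹' {y}) := by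
      intro a
      induction a using Quotient.inductionOn with
      | h a =>
        convert (DX_continua H).2 a using 1
        ext b
        constructor
        · intro h
          exact (DX ξ t).symm' (Quotient.exact h)
        · intro h
          exact Quotient.sound ((DX ξ t).symm' h)
    exact @peano_quotient X _ _ _ (Quotient (DX ξ t)) m ξ t H _ hq hconn
      (fun x y hx hxy => Quotient.sound (Or.inr ⟨hx, hxy⟩))
  · intro E hE x y hxy
    by_cases hne : x = y
    · exact hne ▸ E.refl' x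
    rcases hxy with rfl | ⟨h0, hxy⟩
    · exact E.refl' x
    · refine not_split t H.ct (fun x y h => (SC_of_mem H h).1) E hE x y h0 ?_
      have h1 : {p : X × X | p.2 ∈ connectedComponent p.1 ∧ t p.1 ≠ 0} =
          {p : X × X | SC ξ t p.1 p.2 ∧ t p.1 ≠ 0} := by
        ext ⟨a, b⟩
        simp only [mem_ofPred_eq, mem_component_iff H]
      rw [h1]
      exact hlim x y hne h0 hxy

end Pool.Agent.E8helper48.Core
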