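import Pool.Agent.E8helper48.Core.Coord

/-! The decomposition `DX` is a Peano decomposition. -/

set_option autoImplicit false
set_option linter.unusedSectionVars false

namespace Pool.Agent.E8helper48.Core

open Set Topology Filter

/-- the primitive of a nonnegative continuous function separates exactly the points between which
the function is not identically zero -/
theorem prim_eq_iff {g : ℝ → ℝ} (hg : Continuous g) (h0 : ∀ x, 0 ≤ g x) {a b : ℝ} (hne : a ≠ b) :
    (∫ s in (0 : ℝ)..a, g s) = (∫ s in (0 : ℝ)..b, g s) ↔ ∀ s ∈ uIcc a b, g s = 0 := by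
  have hi : ∀ u v, IntervalIntegrable g MeasureTheory.volume u v := fun u v =>
    hg.intervalIntegrable u v
  have h1 : (∫ s in (0 : ℝ)..b, g s) - (∫ s in (0 : ℝ)..a, g s) = ∫ s in a..b, g s :=
    intervalIntegral.integral_interval_sub_left (hi _ _) (hi _ _)
  have key : ∀ a b : ℝ, a < b → (∫ s in a..b, g s) = 0 → ∀ s ∈ Icc a b, g s = 0 := by
    intro a b hab h s hs
    by_contra hne
    have : 0 < ∫ s in a..b, g s := intervalIntegral.integral_pos hab hg.continuousOn
      (fun x _ => h0 x) ⟨s, hs, lt_of_le_of_ne (h0 s) (Ne.symm hne)⟩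
    linarith
  constructor
  · intro h
    have h2 : (∫ s in a..b, g s) = 0 := by linarith
    rcases lt_trichotomy a b with hab | hab | hab
    · rw [uIcc_of_le hab.le]
      exact key a b hab h2
    · exact absurd hab hne
    · rw [uIcc_of_ge hab.le]
      refine key b a hab ?_
      rw [intervalIntegral.integral_symm, h2, neg_zero]
  · intro h
    have h2 : (∫ s in a..b, g s) = ∫ s in a..b, (0 : ℝ) :=
      intervalIntegral.integral_congr fun s hs => h s hs
    rw [intervalIntegral.integral_zero] at h2
    linarith

theorem prim_continuous {g : ℝ → ℝ} (hg : Continuous g) :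
    Continuous fun a : ℝ => ∫ s in (0 : ℝ)..a, g s :=
  intervalIntegral.continuous_primitive (fun u v => hg.intervalIntegrable u v) 0

variable {X : Type} [TopologicalSpace X] [CompactSpace X] [T2Space X]

/-- a continuous map which separates exactly the elements of `DX` -/
theorem exists_map {ξ t : X → ℝ} (H : Coord ξ t) : ∃ Φ : X → ℝ × ℝ × ℝ, Continuous Φ ∧
    ∀ x y, Φ x = Φ y ↔ DX ξ t x y := by
  set Z : Set ℝ := ξ '' {x | t x = 0} with hZ
  have hZc : IsClosed Z :=
    (((isClosed_eq H.ct continuous_const).isCompact).image H.cξ).isClosed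
  let g : ℝ → ℝ := fun s => Metric.infDist s Z
  have hg : Continuous g := Metric.continuous_infDist_pt Z
  have hg0 : ∀ s, 0 ≤ g s := fun s => Metric.infDist_nonneg
  let h : ℝ → ℝ := fun a => ∫ s in (0 : ℝ)..a, g s
  have hh : Continuous h := prim_continuous hg
  refine ⟨fun x => (h (ξ x), t x, t x * ξ x), ?_, ?_⟩
  · exact (hh.comp H.cξ).prodMk (H.ct.prodMk (H.ct.mul H.cξ))
  · intro x y
    rw [DX_iff]
    simp only [Prod.mk.injEq]
    constructor
    · rintro ⟨h1, h2, h3⟩
      by_cases hx : t x = 0
      · by_cases hxy : ξ x = ξ y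
        · exact Or.inl (H.inj x y hxy h2)
        · right
          refine ⟨hx, h2.symm, fun s hs => ?_⟩
          have h4 := (prim_eq_iff hg hg0 hxy).1 h1 s hs
          have h5 : s ∈ Z := by
            rw [hZc.mem_iff_infDist_zero ⟨ξ x, mem_image_of_mem ξ hx⟩]
            exact h4
          obtain ⟨z, hz, hzs⟩ := h5
          exact ⟨z, hzs, hz.trans hx.symm⟩
      · left
        refine H.inj x y ?_ h2
        rw [← h2] at h3
        exact mul_left_cancel₀ hx h3
    · rintro (rfl | ⟨h0, h1⟩)
      · exact ⟨rfl, rfl, rfl⟩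
      · refine ⟨?_, h1.1.symm, ?_⟩
        · by_cases hxy : ξ x = ξ y
          · rw [hxy]
          · refine (prim_eq_iff hg hg0 hxy).2 fun s hs => ?_
            obtain ⟨z, hz, hzt⟩ := h1.2 s hs
            exact Metric.infDist_zero_of_mem ⟨z, hzt.trans h0, hz⟩
        · rw [h1.1, h0, zero_mul, zero_mul]

/-- the components of the quotient by a monotone map are locally connected -/
theorem component_lc {Y : Type} [TopologicalSpace Y] [T2Space Y] {ξ t : X → ℝ} (H : Coord ξ t)
    (q : X → Y) (hq : IsQuotientMap q) (hconn : ∀ y, IsConnected (q ⁻¹' {y})) (y : Y) :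
    LocallyConnectedSpace (connectedComponent y) := by
  obtain ⟨x, rfl⟩ := hq.surjective y
  have hc := hq.isCoinducing.image_connectedComponent hconn x
  set W : Set X := connectedComponent x with hW
  have hWc : IsCompact W := isClosed_connectedComponent.isCompact
  have : CompactSpace W := isCompact_iff_compactSpace.1 hWc
  have hWconn : IsConnected W := isConnected_connectedComponent
  have hI := eq_Icc_of_connected_compact (hWconn.image ξ H.cξ.continuousOn) (hWc.image H.cξ)
  set a := sInf (ξ '' W)
  set b := sSup (ξ '' W)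
  have hab : a ≤ b := by
    have h1 : (Icc a b).Nonempty := by
      rw [← hI]
      exact (hWconn.nonempty).image ξ
    exact nonempty_Icc.1 h1
  let f : W → Icc a b := fun z => ⟨ξ z, by rw [← hI]; exact mem_image_of_mem ξ z.2⟩
  have hf : Continuous f := (H.cξ.comp continuous_subtype_val).subtype_mk _
  have hb : Function.Bijective f := by
    constructor
    · rintro ⟨z, hz⟩ ⟨w, hw⟩ hzw
      have h1 : ξ z = ξ w := congrArg Subtype.val hzw
      exact Subtype.ext (H.inj _ _ h1
        (t_const H isPreconnected_connectedComponent hw hz))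
    · rintro ⟨s, hs⟩
      rw [← hI] at hs
      obtain ⟨z, hz, rfl⟩ := hs
      exact ⟨⟨z, hz⟩, rfl⟩
  let e : W ≃ₜ Icc a b :=
    Continuous.homeoOfEquivCompactToT2 (f := Equiv.ofBijective f hb) hf
  let g : Icc a b → connectedComponent (q x) := fun s =>
    ⟨q (e.symm s), by rw [← hc]; exact mem_image_of_mem q (e.symm s).2⟩
  have hg : Continuous g :=
    (hq.continuous.comp (continuous_subtype_val.comp e.symm.continuous)).subtype_mk _
  have hgs : Function.Surjective g := by
    rintro ⟨y, hy⟩
    rw [← hc] at hy
    obtain ⟨z, hz, rfl⟩ := hy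
    refine ⟨e ⟨z, hz⟩, Subtype.ext ?_⟩
    simp [g]
  have hgq : IsQuotientMap g := hg.isClosedMap.isQuotientMap hg hgs
  have hp : IsQuotientMap (g ∘ projIcc a b hab) := hgq.comp isQuotientMap_projIcc
  exact hp.isCoinducing.locallyConnectedSpace

end Pool.Agent.E8helper48.Core
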