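import Pool.Agent.E8helper48.Core.Null
import Pool.Agent.E8helper48.Core.Fn

/-! The compactum `K` on the torus and its lift `L` to the square. -/

set_option autoImplicit false
set_option linter.unusedSectionVars false

namespace Pool.Agent.E8helper48.Core

open Set Topology Filter

/-- the torus `(ℝ / ℤ)²` -/
abbrev Torus : Type := AddCircle (1 : ℝ) × AddCircle (1 : ℝ)

/-- the unit square -/
abbrev Square : Type := {z : ℂ // z.re ∈ Icc (0 : ℝ) 1 ∧ z.im ∈ Icc (0 : ℝ) 1}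

/-- the projection of the square onto the torus -/
def tau (z : Square) : Torus := ((z.1.re : AddCircle (1 : ℝ)), (z.1.im : AddCircle (1 : ℝ)))

/-- the set `{0} ∪ {1 / (n + 5)}` -/
def TT : Set ℝ := insert 0 (range fun n : ℕ => (1 : ℝ) / ((n : ℝ) + 5))

theorem tn_tendsto : Tendsto (fun n : ℕ => (1 : ℝ) / ((n : ℝ) + 5)) atTop (𝓝 0) := by
  have h1 : Tendsto (fun n : ℕ => (n : ℝ) + 5) atTop atTop :=
    tendsto_atTop_add_const_right _ _ tendsto_natCast_atTop_atTop
  simp only [one_div]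
  exact h1.inv_tendsto_atTop

theorem TT_compact : IsCompact TT := tn_tendsto.isCompact_insert_range

theorem TT_nonneg {r : ℝ} (h : r ∈ TT) : 0 ≤ r := by
  rcases h with rfl | ⟨n, rfl⟩
  · exact le_rfl
  · positivity

theorem TT_le {r : ℝ} (h : r ∈ TT) : r ≤ 1 / 5 := by
  rcases h with rfl | ⟨n, rfl⟩
  · norm_num
  · exact one_div_le_one_div_of_le (by norm_num) (by linarith [(Nat.cast_nonneg n : (0 : ℝ) ≤ n)])

theorem TT_fin {δ : ℝ} (hδ : 0 < δ) : {r | δ ≤ r ∧ r ∈ TT}.Finite := by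
  obtain ⟨N, hN⟩ := exists_nat_gt (1 / δ)
  refine ((Finset.range N).finite_toSet.image fun n : ℕ => (1 : ℝ) / ((n : ℝ) + 5)).subset ?_
  rintro r ⟨h1, rfl | ⟨n, rfl⟩⟩
  · exact absurd h1 (not_le.2 hδ)
  · refine ⟨n, ?_, rfl⟩
    simp only [Finset.coe_range, mem_Iio]
    by_contra h
    push Not at h
    have h2 : (N : ℝ) ≤ n := by exact_mod_cast h
    have h3 : (1 : ℝ) / ((n : ℝ) + 5) < δ := by
      rw [div_lt_iff₀ (by positivity)]
      rw [div_lt_iff₀ hδ] at hN
      nlinarith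
    exact absurd h1 (not_le.2 h3)

/-- the parametrization of `K` -/
noncomputable def psi (p : ℝ × ℝ) : Torus :=
  (((1 / 4 + p.1 / 2 : ℝ) : AddCircle (1 : ℝ)), ((f p.1 + p.2 : ℝ) : AddCircle (1 : ℝ)))

theorem psi_cont : Continuous psi := by
  unfold psi
  have := f_cont
  exact (AddCircle.continuous_mk' (1 : ℝ)).comp (by fun_prop) |>.prodMk
    ((AddCircle.continuous_mk' (1 : ℝ)).comp (by fun_prop))

/-- the compactum `K` -/
def KK : Set Torus := psi '' (Icc (0 : ℝ) 1 ×ˢ TT)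

theorem KK_compact : IsCompact KK := (isCompact_Icc.prod TT_compact).image psi_cont

theorem fr_mem {x r : ℝ} (hr : r ∈ TT) : f x + r ∈ Icc (-1 / 4 : ℝ) (9 / 20) := by
  have h1 := abs_le.1 (f_bound x)
  have h2 := TT_nonneg hr
  have h3 := TT_le hr
  constructor <;> linarith [h1.1, h1.2]

theorem coe_eq {a b : ℝ} (h : (a : AddCircle (1 : ℝ)) = b) : ∃ n : ℤ, a - b = n := by
  have h1 : ((a - b : ℝ) : AddCircle (1 : ℝ)) = 0 := by
    rw [AddCircle.coe_sub, h, sub_self]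
  obtain ⟨n, hn⟩ := (AddCircle.coe_eq_zero_iff (1 : ℝ)).1 h1
  exact ⟨n, by rw [← hn]; simp⟩

theorem coe_inj {a b : ℝ} (h : (a : AddCircle (1 : ℝ)) = b) (h1 : |a - b| < 1) : a = b := by
  obtain ⟨n, hn⟩ := coe_eq h
  rw [hn] at h1
  have h2 : |n| < 1 := by exact_mod_cast h1
  rw [Int.abs_lt_one_iff] at h2
  rw [h2] at hn
  simp at hn
  linarith

theorem psi_inj : InjOn psi (Icc (0 : ℝ) 1 ×ˢ TT) := by
  rintro ⟨x, r⟩ ⟨hx, hr⟩ ⟨x', r'⟩ ⟨hx', hr'⟩ h
  simp only at hx hr hx' hr'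
  have h1 : (((1 / 4 + x / 2 : ℝ)) : AddCircle (1 : ℝ)) = ((1 / 4 + x' / 2 : ℝ)) :=
    congrArg Prod.fst h
  have h2 : ((f x + r : ℝ) : AddCircle (1 : ℝ)) = ((f x' + r' : ℝ)) := congrArg Prod.snd h
  have h3 := coe_inj h1 (by rw [abs_lt]; constructor <;> linarith [hx.1, hx.2, hx'.1, hx'.2])
  have h4 : x = x' := by linarith
  subst h4
  have h5 := fr_mem (x := x) hr
  have h6 := fr_mem (x := x) hr'
  have h7 := coe_inj h2 (by rw [abs_lt]; constructor <;> linarith [h5.1, h5.2, h6.1, h6.2])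
  have h8 : r = r' := by linarith
  rw [h8]

/-- the parameter space of `K` -/
abbrev A : Type := ↥(Icc (0 : ℝ) 1 ×ˢ TT)

instance : CompactSpace A := isCompact_iff_compactSpace.1 (isCompact_Icc.prod TT_compact)

instance : CompactSpace KK := isCompact_iff_compactSpace.1 KK_compact

noncomputable def psiA (p : A) : KK := ⟨psi p.1, mem_image_of_mem psi p.2⟩

theorem psiA_cont : Continuous psiA := (psi_cont.comp continuous_subtype_val).subtype_mk _

theorem psiA_bij : Function.Bijective psiA := by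
  constructor
  · intro p q h
    exact Subtype.ext (psi_inj p.2 q.2 (congrArg Subtype.val h))
  · rintro ⟨k, p, hp, rfl⟩
    exact ⟨⟨p, hp⟩, rfl⟩

noncomputable def eK : A ≃ₜ KK :=
  Continuous.homeoOfEquivCompactToT2 (f := Equiv.ofBijective psiA psiA_bij) psiA_cont

theorem eK_apply (p : A) : eK p = psiA p := rfl

/-- the coordinates on `K` -/
noncomputable def xK (k : KK) : ℝ := (eK.symm k).1.1

noncomputable def tK (k : KK) : ℝ := (eK.symm k).1.2

theorem xK_cont : Continuous xK :=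
  continuous_fst.comp (continuous_subtype_val.comp eK.symm.continuous)

theorem tK_cont : Continuous tK :=
  continuous_snd.comp (continuous_subtype_val.comp eK.symm.continuous)

theorem xK_mem (k : KK) : xK k ∈ Icc (0 : ℝ) 1 := (eK.symm k).2.1

theorem tK_mem (k : KK) : tK k ∈ TT := (eK.symm k).2.2

theorem psi_coord (k : KK) : psi (xK k, tK k) = k.1 := by
  have h1 := eK.apply_symm_apply k
  exact congrArg Subtype.val h1

theorem coordK_ext {k k' : KK} (h : xK k = xK k') (h' : tK k = tK k') : k = k' := by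
  apply Subtype.ext
  rw [← psi_coord k, ← psi_coord k', h, h']

/-- the point of `K` with given coordinates -/
noncomputable def pK (x r : ℝ) (hx : x ∈ Icc (0 : ℝ) 1) (hr : r ∈ TT) : KK :=
  psiA ⟨(x, r), hx, hr⟩

theorem xK_pK (x r : ℝ) (hx : x ∈ Icc (0 : ℝ) 1) (hr : r ∈ TT) : xK (pK x r hx hr) = x := by
  have h1 := eK.symm_apply_apply ⟨(x, r), hx, hr⟩
  exact congrArg (fun p : A => p.1.1) h1

theorem tK_pK (x r : ℝ) (hx : x ∈ Icc (0 : ℝ) 1) (hr : r ∈ TT) : tK (pK x r hx hr) = r := by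
  have h1 := eK.symm_apply_apply ⟨(x, r), hx, hr⟩
  exact congrArg (fun p : A => p.1.2) h1

theorem coordK : Coord xK tK where
  cξ := xK_cont
  ct := tK_cont
  inj := fun _ _ => coordK_ext
  nonneg := fun k => TT_nonneg (tK_mem k)
  fin := fun δ hδ => (TT_fin hδ).subset fun r hr => ⟨hr.1, by
    obtain ⟨k, rfl⟩ := hr.2
    exact tK_mem k⟩

theorem SC_K {k k' : KK} (h : tK k' = tK k) : SC xK tK k k' := by
  refine ⟨h, fun s hs => ?_⟩
  have h1 : s ∈ Icc (0 : ℝ) 1 :=
    (ordConnected_Icc.uIcc_subset (xK_mem k) (xK_mem k')) hs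
  exact ⟨pK s (tK k) h1 (tK_mem k), xK_pK _ _ _ _, tK_pK _ _ _ _⟩

theorem tn_mem (n : ℕ) : (1 : ℝ) / ((n : ℝ) + 5) ∈ TT := Or.inr ⟨n, rfl⟩

theorem tn_ne (n : ℕ) : (1 : ℝ) / ((n : ℝ) + 5) ≠ 0 := by positivity

theorem isCore_K : IsCore (DX xK tK) := by
  refine isCore_DX coordK fun k k' _ h0 h => ?_
  have ht' : tK k' = 0 := h.1.trans h0
  have key : ∀ k : KK, tK k = 0 → Tendsto (fun n : ℕ => pK (xK k) ((1 : ℝ) / ((n : ℝ) + 5))
      (xK_mem k) (tn_mem n)) atTop (𝓝 k) := by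
    intro k hk
    refine tendsto_of_coord coordK ?_ ?_
    · simp only [xK_pK]
      exact tendsto_const_nhds
    · simp only [tK_pK]
      rw [hk]
      exact tn_tendsto
  refine mem_closure_of_tendsto ((key k h0).prodMk_nhds (key k' ht')) ?_
  refine Eventually.of_forall fun n => ⟨SC_K ?_, ?_⟩
  · simp only [tK_pK]
  · simp only [tK_pK]
    exact tn_ne n

end Pool.Agent.E8helper48.Core
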